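import Pool.Agent.helper15.P2.SpecB

set_option autoImplicit false

/-!
# P2: row BJL, the univalence radius of the slices is jointly lower semicontinuous
-/

open scoped ContDiff Topology ComplexConjugate ENNReal
open MeasureTheory Filter Set Metric

namespace Pool.Agent.P2B

open Pool.Agent.P2 Pool.Agent.P2I

/-- the equation of the branches around `(a : b)` -/
noncomputable def BJL_Phi (P Q : ℂ × ℂ → ℂ) (a b : ℂ) (q : ℂ × ℂ × ℂ) : ℂ :=
  P (q.1, q.2.2) * (b + q.2.1 * conj a) - Q (q.1, q.2.2) * (a - q.2.1 * conj b)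

/-- the domain of the equation -/
def BJL_O : Set (ℂ × ℂ × ℂ) := {q | (q.1, q.2.2) ∈ BI}

theorem BJL_cont : Continuous (fun q : ℂ × ℂ × ℂ => ((q.1, q.2.2) : ℂ × ℂ)) := by fun_prop

theorem BJL_BI_open : IsOpen BI := isOpen_ball.prod isOpen_ball

theorem BJL_open : IsOpen BJL_O := BJL_BI_open.preimage BJL_cont

theorem BJL_diff (P Q : ℂ × ℂ → ℂ) (E : ℝ) (h : ND P Q E) (a b : ℂ) :
    DifferentiableOn ℂ (BJL_Phi P Q a b) BJL_O := by
  have h1 : DifferentiableOn ℂ (fun q : ℂ × ℂ × ℂ => ((q.1, q.2.2) : ℂ × ℂ)) BJL_O := by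
    have : Differentiable ℂ (fun q : ℂ × ℂ × ℂ => ((q.1, q.2.2) : ℂ × ℂ)) := by fun_prop
    exact this.differentiableOn
  have hP : DifferentiableOn ℂ (fun q : ℂ × ℂ × ℂ => P (q.1, q.2.2)) BJL_O :=
    h.dP.comp h1 fun q hq => hq
  have hQ : DifferentiableOn ℂ (fun q : ℂ × ℂ × ℂ => Q (q.1, q.2.2)) BJL_O :=
    h.dQ.comp h1 fun q hq => hq
  have h2 : DifferentiableOn ℂ (fun q : ℂ × ℂ × ℂ => b + q.2.1 * conj a) BJL_O := by
    have : Differentiable ℂ (fun q : ℂ × ℂ × ℂ => b + q.2.1 * conj a) := by fun_prop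
    exact this.differentiableOn
  have h3 : DifferentiableOn ℂ (fun q : ℂ × ℂ × ℂ => a - q.2.1 * conj b) BJL_O := by
    have : Differentiable ℂ (fun q : ℂ × ℂ × ℂ => a - q.2.1 * conj b) := by fun_prop
    exact this.differentiableOn
  exact (hP.mul h2).sub (hQ.mul h3)

/-- the derivative of the equation in the first variable -/
theorem BJL_fd (P Q : ℂ × ℂ → ℂ) (E : ℝ) (h : ND P Q E) (a b x t v : ℂ) (hx : (x, v) ∈ BI)
    (hA : Adm (sl P v) (sl Q v)) :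
    fderiv ℂ (BJL_Phi P Q a b) (x, t, v) (1, 0, 0) =
      deriv (sl P v) x * (b + t * conj a) - deriv (sl Q v) x * (a - t * conj b) := by
  have hmem : ((x, t, v) : ℂ × ℂ × ℂ) ∈ BJL_O := hx
  have h1 : HasFDerivAt (BJL_Phi P Q a b) (fderiv ℂ (BJL_Phi P Q a b) (x, t, v)) (x, t, v) :=
    ((BJL_diff P Q E h a b).differentiableAt (BJL_open.mem_nhds hmem)).hasFDerivAt
  have h2 : HasDerivAt (fun s : ℂ => ((s, t, v) : ℂ × ℂ × ℂ)) (1, 0, 0) x :=
    (hasDerivAt_id x).prodMk ((hasDerivAt_const x t).prodMk (hasDerivAt_const x v))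
  have h3 : HasDerivAt (BJL_Phi P Q a b ∘ fun s : ℂ => ((s, t, v) : ℂ × ℂ × ℂ))
      (fderiv ℂ (BJL_Phi P Q a b) (x, t, v) (1, 0, 0)) x :=
    HasFDerivAt.comp_hasDerivAt (l := BJL_Phi P Q a b)
      (f := fun s : ℂ => ((s, t, v) : ℂ × ℂ × ℂ)) x h1 h2
  have hx1 : x ∈ ball (0 : ℂ) 1 := hx.1
  have hP : HasDerivAt (sl P v) (deriv (sl P v) x) x :=
    (hA.1.differentiableAt (isOpen_ball.mem_nhds hx1)).hasDerivAt
  have hQ : HasDerivAt (sl Q v) (deriv (sl Q v) x) x :=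
    (hA.2.1.differentiableAt (isOpen_ball.mem_nhds hx1)).hasDerivAt
  have h4 : HasDerivAt (fun s : ℂ => sl P v s * (b + t * conj a) - sl Q v s * (a - t * conj b))
      (deriv (sl P v) x * (b + t * conj a) - deriv (sl Q v) x * (a - t * conj b)) x :=
    (hP.mul_const _).sub (hQ.mul_const _)
  exact h3.unique h4

/-- the frame `(a - t conj b, b + t conj a)` does not vanish -/
theorem BJL_frame (a b t : ℂ) (hab : a ≠ 0 ∨ b ≠ 0) (h1 : a - t * conj b = 0)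
    (h2 : b + t * conj a = 0) : False := by
  have h3 : a * conj a + b * conj b = 0 := by
    linear_combination conj a * h1 + conj b * h2
  rw [Complex.mul_conj, Complex.mul_conj] at h3
  have h4 : Complex.normSq a + Complex.normSq b = 0 := by exact_mod_cast h3
  have h5 := Complex.normSq_nonneg a
  have h6 := Complex.normSq_nonneg b
  rcases hab with h | h
  · exact h (Complex.normSq_eq_zero.1 (by linarith))
  · exact h (Complex.normSq_eq_zero.1 (by linarith))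

theorem BJL_nv (a b t p q p' q' : ℂ) (hab : a ≠ 0 ∨ b ≠ 0)
    (he : p * (b + t * conj a) = q * (a - t * conj b)) (hW : q * p' - p * q' ≠ 0) :
    p' * (b + t * conj a) - q' * (a - t * conj b) ≠ 0 := by
  intro h
  have h1 : (b + t * conj a) * (q * p' - p * q') = 0 := by
    linear_combination q * h - q' * he
  have h2 : (a - t * conj b) * (q * p' - p * q') = 0 := by
    linear_combination p * h - p' * he
  have h3 : b + t * conj a = 0 := (mul_eq_zero.1 h1).resolve_right hW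
  have h4 : a - t * conj b = 0 := (mul_eq_zero.1 h2).resolve_right hW
  exact BJL_frame a b t hab h4 h3

theorem BJL_D (a b : ℂ) (hab : a ≠ 0 ∨ b ≠ 0) : a * conj a + b * conj b ≠ 0 := by
  intro h
  rw [Complex.mul_conj, Complex.mul_conj] at h
  have h4 : Complex.normSq a + Complex.normSq b = 0 := by exact_mod_cast h
  have h5 := Complex.normSq_nonneg a
  have h6 := Complex.normSq_nonneg b
  rcases hab with h | h
  · exact h (Complex.normSq_eq_zero.1 (by linarith))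
  · exact h (Complex.normSq_eq_zero.1 (by linarith))

/-- proportional vectors -/
theorem BJL_mu (a b p q : ℂ) (hab : a ≠ 0 ∨ b ≠ 0) (hpq : p ≠ 0 ∨ q ≠ 0) (h : p * b = q * a) :
    ∃ μ : ℂ, μ ≠ 0 ∧ p = μ * a ∧ q = μ * b := by
  have hD := BJL_D a b hab
  refine ⟨(p * conj a + q * conj b) / (a * conj a + b * conj b), ?_, ?_, ?_⟩
  · intro h0
    rw [div_eq_zero_iff] at h0
    have h1 := h0.resolve_right hD
    have h2 : p * (a * conj a + b * conj b) = 0 := by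
      linear_combination a * h1 + conj b * h
    have h3 : q * (a * conj a + b * conj b) = 0 := by
      linear_combination b * h1 - conj a * h
    rcases hpq with h4 | h4
    · exact h4 ((mul_eq_zero.1 h2).resolve_right hD)
    · exact h4 ((mul_eq_zero.1 h3).resolve_right hD)
  · rw [div_mul_eq_mul_div, eq_div_iff hD]
    linear_combination conj b * h
  · rw [div_mul_eq_mul_div, eq_div_iff hD]
    linear_combination - conj a * h

theorem BJL_norm_l (μ : ℂ) (h : μ ≠ 0) : ‖conj μ / μ‖ = 1 := by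
  rw [norm_div, Complex.norm_conj, div_self (norm_ne_zero_iff.2 h)]

/-- the branch of the slice -/
theorem BJL_br (P Q : ℂ × ℂ → ℂ) (E : ℝ) (h : ND P Q E) (a b v : ℂ) (hab : a ≠ 0 ∨ b ≠ 0)
    (R δ : ℝ) (v₀ : ℂ) (hR : 0 < R) (Y : ℂ × ℂ → ℂ)
    (hv : v ∈ ball v₀ δ) (hY : DifferentiableOn ℂ Y (ball (0 : ℂ) R ×ˢ ball v₀ δ))
    (hE : ∀ t ∈ ball (0 : ℂ) R, (Y (t, v), v) ∈ BI ∧ BJL_Phi P Q a b (Y (t, v), t, v) = 0) :
    ∃ l : ℂ, ‖l‖ = 1 ∧
      Br (sl P v) (sl Q v) (ball 0 1) (Y (0, v)) R (fun t => Y (l * t, v)) := by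
  have h0 : (0 : ℂ) ∈ ball (0 : ℂ) R := mem_ball_self hR
  obtain ⟨h1, h2⟩ := hE 0 h0
  have h3 : P (Y (0, v), v) * b = Q (Y (0, v), v) * a := by
    unfold BJL_Phi at h2
    simp only [zero_mul, add_zero, sub_zero] at h2
    exact sub_eq_zero.1 h2
  obtain ⟨μ, hμ, hp, hq⟩ := BJL_mu a b _ _ hab (h.ne _ h1) h3
  have hl := BJL_norm_l μ hμ
  have hball : ∀ t ∈ ball (0 : ℂ) R, conj μ / μ * t ∈ ball (0 : ℂ) R := by
    intro t ht
    rw [mem_ball_zero_iff] at ht ⊢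
    rw [norm_mul, hl, one_mul]
    exact ht
  refine ⟨conj μ / μ, hl, ?_, ?_, ?_⟩
  · have h4 : DifferentiableOn ℂ (fun t : ℂ => ((conj μ / μ * t, v) : ℂ × ℂ)) (ball 0 R) := by
      have : Differentiable ℂ (fun t : ℂ => ((conj μ / μ * t, v) : ℂ × ℂ)) := by fun_prop
      exact this.differentiableOn
    exact hY.comp h4 fun t ht => ⟨hball t ht, hv⟩
  · simp only [mul_zero]
  · intro t ht
    obtain ⟨h5, h6⟩ := hE _ (hball t ht)
    refine ⟨h5.1, ?_⟩
    unfold BJL_Phi at h6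
    simp only at h6
    show P (Y (conj μ / μ * t, v), v) * (Q (Y (0, v), v) + t * conj (P (Y (0, v), v))) =
      Q (Y (conj μ / μ * t, v), v) * (P (Y (0, v), v) - t * conj (Q (Y (0, v), v)))
    rw [hp, hq, map_mul, map_mul]
    have h7 : μ * (conj μ / μ * t) = conj μ * t := by
      field_simp
    linear_combination μ * h6 - (P (Y (conj μ / μ * t, v), v) * conj a +
      Q (Y (conj μ / μ * t, v), v) * conj b) * h7

/-- the estimate for the change of the base point -/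
theorem BJL_est (R c' : ℝ) (hR : 0 < R) (hR1 : R ≤ 1) (_ : 0 < c') (hcR : c' < R) (t₀ : ℂ)
    (ht₀ : ‖t₀‖ ≤ (R - c') / 2) : ∀ s ∈ ball (0 : ℂ) c', ‖s + t₀‖ < R * ‖1 - conj t₀ * s‖ := by
  intro s hs
  rw [mem_ball_zero_iff] at hs
  have h1 : ‖s + t₀‖ ≤ ‖s‖ + ‖t₀‖ := norm_add_le _ _
  have h2 : 1 - ‖t₀‖ * ‖s‖ ≤ ‖1 - conj t₀ * s‖ := by
    have h3 := norm_sub_norm_le (1 : ℂ) (conj t₀ * s)
    rw [norm_one, norm_mul, Complex.norm_conj] at h3
    exact h3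
  have h4 : ‖t₀‖ * ‖s‖ ≤ ‖t₀‖ * 1 :=
    mul_le_mul_of_nonneg_left (by linarith) (norm_nonneg _)
  have h5 : R * (1 - ‖t₀‖) ≤ R * ‖1 - conj t₀ * s‖ :=
    mul_le_mul_of_nonneg_left (by linarith) hR.le
  have h6 : R * ‖t₀‖ ≤ 1 * ‖t₀‖ := mul_le_mul_of_nonneg_right hR1 (norm_nonneg _)
  nlinarith [norm_nonneg t₀]

/-- the main step -/
theorem BJL_main (hBSL : BSL_stmt) (hBPI : BPI_stmt) (hBRA : BRA_stmt) (hBRC : BRC_stmt)
    (hBRS : BRS_stmt) (P Q : ℂ × ℂ → ℂ) (E : ℝ) (h : ND P Q E) (c : ℝ) (hc : 0 ≤ c)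
    (p : ℂ × ℂ) (hp : p ∈ BI) (hcp : c < rh (sl P p.2) (sl Q p.2) p.1) :
    ∀ᶠ q in 𝓝 p, c < rh (sl P q.2) (sl Q q.2) q.1 := by
  obtain ⟨x₀, v₀⟩ := p
  simp only at hcp
  have hx₀ : x₀ ∈ ball (0 : ℂ) 1 := hp.1
  have hv₀ : v₀ ∈ ball (0 : ℂ) 1 := hp.2
  have hA := (hBSL P Q E h v₀ hv₀).1
  obtain ⟨hr0, hr1, ⟨X, hX⟩, _, _⟩ := hBRC _ _ hA x₀ hx₀
  obtain ⟨_, hBr, _⟩ := hBRA _ _ hA x₀ hx₀
  set ρ := rh (sl P v₀) (sl Q v₀) x₀ with hρ
  obtain ⟨R, hcR, hRρ⟩ := exists_between hcp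
  obtain ⟨c', hcc', hc'R⟩ := exists_between hcR
  have hR0 : 0 < R := by linarith
  have hρ0 : 0 < ρ := by linarith
  have hc'0 : 0 < c' := by linarith
  obtain ⟨_, _, hX2⟩ := hBr ρ X hρ0 hX
  obtain ⟨hXd, hX0, hXe⟩ := hX
  set a := P (x₀, v₀) with ha
  set b := Q (x₀, v₀) with hb
  have hab : a ≠ 0 ∨ b ≠ 0 := h.ne _ hp
  have hD := BJL_D a b hab
  obtain ⟨ε, δ, Y, hε, hδ, hYd, hY0, hYe⟩ := hBPI (BJL_Phi P Q a b) BJL_O X v₀ ρ R BJL_open
    (BJL_diff P Q E h a b) hR0 hRρ hXd (fun t ht => by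
      obtain ⟨e1, e2⟩ := hXe t ht
      have e3 : (X t, v₀) ∈ BI := ⟨e1, hv₀⟩
      have e4 : P (X t, v₀) * (b + t * conj a) = Q (X t, v₀) * (a - t * conj b) := e2
      refine ⟨e3, ?_, ?_⟩
      · exact sub_eq_zero.2 e4
      · rw [BJL_fd P Q E h a b (X t) t v₀ e3 hA]
        exact BJL_nv a b t _ _ _ _ hab e4 (hX2 t ht).2.2.1)
  -- the coordinate
  have hPc : ContinuousAt P (x₀, v₀) :=
    (h.dP.differentiableAt (BJL_BI_open.mem_nhds hp)).continuousAt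
  have hQc : ContinuousAt Q (x₀, v₀) :=
    (h.dQ.differentiableAt (BJL_BI_open.mem_nhds hp)).continuousAt
  have hden : ContinuousAt (fun q : ℂ × ℂ => P q * conj a + Q q * conj b) (x₀, v₀) :=
    (hPc.mul continuousAt_const).add (hQc.mul continuousAt_const)
  have hTc : ContinuousAt (fun q : ℂ × ℂ => (Q q * a - P q * b) / (P q * conj a + Q q * conj b))
      (x₀, v₀) :=
    ((hQc.mul continuousAt_const).sub (hPc.mul continuousAt_const)).div hden hD
  have hT0 : (Q (x₀, v₀) * a - P (x₀, v₀) * b) /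
      (P (x₀, v₀) * conj a + Q (x₀, v₀) * conj b) = 0 := by
    show (b * a - a * b) / (a * conj a + b * conj b) = 0
    rw [mul_comm b a, sub_self, zero_div]
  have hTt : Tendsto (fun q : ℂ × ℂ => (Q q * a - P q * b) / (P q * conj a + Q q * conj b))
      (𝓝 (x₀, v₀)) (𝓝 0) := by
    have e1 := hTc.tendsto
    rw [hT0] at e1
    exact e1
  have hη : 0 < min ((R - c') / 2) R := lt_min (by linarith) hR0
  have ev1 : ∀ᶠ q in 𝓝 ((x₀, v₀) : ℂ × ℂ),
      ‖(Q q * a - P q * b) / (P q * conj a + Q q * conj b)‖ < min ((R - c') / 2) R := by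
    have e1 := hTt (ball_mem_nhds (0 : ℂ) hη)
    filter_upwards [e1] with q hq
    rw [← mem_ball_zero_iff]
    exact hq
  have ev2 : ∀ᶠ q in 𝓝 ((x₀, v₀) : ℂ × ℂ), P q * conj a + Q q * conj b ≠ 0 :=
    hden.eventually_ne hD
  have ev3 : ∀ᶠ q in 𝓝 ((x₀, v₀) : ℂ × ℂ), q ∈ BI := BJL_BI_open.mem_nhds hp
  have ev4 : ∀ᶠ q in 𝓝 ((x₀, v₀) : ℂ × ℂ), q.2 ∈ ball v₀ δ :=
    continuousAt_snd (ball_mem_nhds v₀ hδ)
  have hXc : ContinuousAt X 0 :=
    (hXd.differentiableAt (isOpen_ball.mem_nhds (mem_ball_self hρ0))).continuousAt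
  have hXT : Tendsto (fun q : ℂ × ℂ =>
      X ((Q q * a - P q * b) / (P q * conj a + Q q * conj b))) (𝓝 (x₀, v₀)) (𝓝 x₀) := by
    have e1 := hXc.tendsto.comp hTt
    rw [hX0] at e1
    exact e1
  have ev5 : ∀ᶠ q in 𝓝 ((x₀, v₀) : ℂ × ℂ),
      q.1 ∈ ball (X ((Q q * a - P q * b) / (P q * conj a + Q q * conj b))) ε := by
    have e1 : Tendsto (fun q : ℂ × ℂ =>
        dist q.1 (X ((Q q * a - P q * b) / (P q * conj a + Q q * conj b)))) (𝓝 (x₀, v₀))
        (𝓝 (dist x₀ x₀)) := (continuousAt_fst.tendsto).dist hXT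
    rw [dist_self] at e1
    filter_upwards [e1 (gt_mem_nhds hε)] with q hq
    exact hq
  filter_upwards [ev1, ev2, ev3, ev4, ev5] with q h1 h2 h3 h4 h5
  obtain ⟨x, v⟩ := q
  set t := (Q (x, v) * a - P (x, v) * b) / (P (x, v) * conj a + Q (x, v) * conj b) with ht
  simp only at h1 h2 h3 h4 h5
  have hv : v ∈ ball (0 : ℂ) 1 := h3.2
  have hAv := (hBSL P Q E h v hv).1
  have htR : t ∈ ball (0 : ℂ) R := by
    rw [mem_ball_zero_iff]
    exact h1.trans_le (min_le_right _ _)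
  have hPhi : BJL_Phi P Q a b (x, t, v) = 0 := by
    unfold BJL_Phi
    simp only
    have e1 : t * (P (x, v) * conj a + Q (x, v) * conj b) = Q (x, v) * a - P (x, v) * b := by
      rw [ht]
      exact div_mul_cancel₀ _ h2
    linear_combination e1
  have hxY : x = Y (t, v) := (hYe t htR v h4).2.2.2.2 x h5 h3 hPhi
  obtain ⟨l, hl, hBrv⟩ := BJL_br P Q E h a b v hab R δ v₀ hR0 Y h4 hYd
    (fun s hs => ⟨(hYe s hs v h4).1, (hYe s hs v h4).2.1⟩)
  have hl0 : l ≠ 0 := by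
    intro h0
    rw [h0, norm_zero] at hl
    exact zero_ne_one hl
  have ht₀ : ‖t / l‖ = ‖t‖ := by rw [norm_div, hl, div_one]
  have ht₀R : t / l ∈ ball (0 : ℂ) R := by
    rw [mem_ball_zero_iff, ht₀]
    exact mem_ball_zero_iff.1 htR
  have hy0 : Y (0, v) ∈ ball (0 : ℂ) 1 := (hYe 0 (mem_ball_self hR0) v h4).1.1
  obtain ⟨l', hl', hB⟩ := hBRS _ _ hAv (Y (0, v)) hy0 (ball 0 1) R _ (subset_refl _)
    (by linarith) hBrv (t / l) ht₀R
  have hfin := hB c' (BJL_est R c' hR0 (by linarith) hc'0 hc'R (t / l) (by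
    rw [ht₀]
    exact (h1.trans_le (min_le_left _ _)).le))
  have e2 : Y (l * (t / l), v) = x := by
    rw [mul_div_cancel₀ _ hl0, ← hxY]
  have e3 := (hBRC _ _ hAv x h3.1).2.2.2.2 c' _ (by linarith) (e2 ▸ hfin)
  exact hcc'.trans_le e3

/-- BJL -/
theorem BJL (hBSL : BSL_stmt) (hBPI : BPI_stmt) (hBRA : BRA_stmt) (hBRC : BRC_stmt)
    (hBRS : BRS_stmt) : BJL_stmt := by
  intro P Q E h
  have hnn : ∀ p ∈ BI, 0 ≤ rh (sl P p.2) (sl Q p.2) p.1 := fun p hp =>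
    (hBRC _ _ (hBSL P Q E h p.2 hp.2).1 p.1 hp.1).1
  have hop : ∀ c : ℝ, IsOpen {p : ℂ × ℂ | p ∈ BI ∧ c < rh (sl P p.2) (sl Q p.2) p.1} := by
    intro c
    rw [isOpen_iff_mem_nhds]
    rintro p ⟨hp, hcp⟩
    have hBI : ∀ᶠ q in 𝓝 p, q ∈ BI := BJL_BI_open.mem_nhds hp
    rcases lt_or_ge c 0 with hc | hc
    · filter_upwards [hBI] with q hq
      exact ⟨hq, hc.trans_le (hnn q hq)⟩
    · filter_upwards [hBI, BJL_main hBSL hBPI hBRA hBRC hBRS P Q E h c hc p hp hcp] with q h1 h2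
      exact ⟨h1, h2⟩
  refine ⟨hop, measurable_of_Ioi fun c => ?_⟩
  rcases lt_or_ge c 0 with hc | hc
  · have e1 : (fun p : ℂ × ℂ => (BI).indicator
        (fun p : ℂ × ℂ => rh (sl P p.2) (sl Q p.2) p.1) p) ⁻¹' (Ioi c) = univ := by
      ext p
      simp only [mem_preimage, mem_Ioi, mem_univ, iff_true]
      by_cases hp : p ∈ BI
      · rw [indicator_of_mem hp]
        exact hc.trans_le (hnn p hp)
      · rw [indicator_of_notMem hp]
        exact hc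
    rw [e1]
    exact MeasurableSet.univ
  · have e1 : (fun p : ℂ × ℂ => (BI).indicator
        (fun p : ℂ × ℂ => rh (sl P p.2) (sl Q p.2) p.1) p) ⁻¹' (Ioi c) =
        {p : ℂ × ℂ | p ∈ BI ∧ c < rh (sl P p.2) (sl Q p.2) p.1} := by
      ext p
      simp only [mem_preimage, mem_Ioi, mem_ofPred_eq]
      by_cases hp : p ∈ BI
      · rw [indicator_of_mem hp]
        exact ⟨fun h1 => ⟨hp, h1⟩, fun h1 => h1.2⟩
      · rw [indicator_of_notMem hp]
        exact ⟨fun h1 => absurd h1 (not_lt.2 hc), fun h1 => absurd h1.1 hp⟩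
    rw [e1]
    exact (hop c).measurableSet

end Pool.Agent.P2B
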