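import Pool.Agent.helper15.P2.SpecD
import Pool.Agent.helper49.P2.OSG
import Pool.Agent.helper43.P2.CHN
import Pool.Agent.helper82.P2.IS2
import Pool.Agent.helper48.P2.IS3

set_option autoImplicit false

/-!
# P2: row BT1, a band of small area is thin
-/

open scoped ContDiff Topology ComplexConjugate ENNReal
open MeasureTheory Filter Set Metric

namespace Pool.Agent.P2B

open Pool.Agent.P2 Pool.Agent.P2I

/-! ### derivatives -/

theorem BT1_open : IsOpen BI := isOpen_ball.prod isOpen_ball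

/-- the derivative in the second variable -/
noncomputable def BT1_D (Z : ℂ × ℂ → ℂ) (p : ℂ × ℂ) : ℂ := fderiv ℂ Z p (0, 1)

theorem BT1_D_diff (Z : ℂ × ℂ → ℂ) (hZ : DifferentiableOn ℂ Z BI) :
    DifferentiableOn ℂ (BT1_D Z) BI := by
  have h1 : ContDiffOn ℂ ∞ Z BI := OSG_infty BT1_open hZ
  have h2 : ContDiffOn ℂ ∞ (fderiv ℂ Z) BI := h1.fderiv_of_isOpen BT1_open (by simp)
  have h3 : DifferentiableOn ℂ (fderiv ℂ Z) BI := h2.differentiableOn (by simp)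
  exact h3.clm_apply (differentiableOn_const _)

theorem BT1_D_has (Z : ℂ × ℂ → ℂ) (hZ : DifferentiableOn ℂ Z BI) (t v : ℂ)
    (hp : (t, v) ∈ BI) : HasDerivAt (fun w => Z (t, w)) (BT1_D Z (t, v)) v := by
  have h1 : HasFDerivAt Z (fderiv ℂ Z (t, v)) (t, v) :=
    (hZ.differentiableAt (BT1_open.mem_nhds hp)).hasFDerivAt
  have h2 : HasDerivAt (fun w : ℂ => ((t, w) : ℂ × ℂ)) (0, 1) v :=
    (hasDerivAt_const v t).prodMk (hasDerivAt_id v)
  exact HasFDerivAt.comp_hasDerivAt (l := Z) (f := fun w : ℂ => ((t, w) : ℂ × ℂ)) v h1 h2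

theorem BT1_D_bd (Z : ℂ × ℂ → ℂ) (M : ℝ) (hZ : DifferentiableOn ℂ Z BI)
    (hM : ∀ p ∈ BI, ‖Z p‖ ≤ M) (t v : ℂ) (ht : t ∈ ball (0 : ℂ) 1)
    (hv : v ∈ ball (0 : ℂ) (1 / 2)) : ‖BT1_D Z (t, v)‖ ≤ 2 * M := by
  have hv1 : v ∈ ball (0 : ℂ) 1 := ball_subset_ball (by norm_num) hv
  have hcl : closedBall v (1 / 2) ⊆ ball (0 : ℂ) 1 := by
    intro w hw
    rw [mem_closedBall] at hw
    rw [mem_ball] at hv ⊢
    calc dist w 0 ≤ dist w v + dist v 0 := dist_triangle _ _ _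
      _ < 1 := by linarith
  have h1 : DiffContOnCl ℂ (fun w => Z (t, w)) (ball v (1 / 2)) := by
    apply DifferentiableOn.diffContOnCl
    rw [closure_ball v (by norm_num)]
    intro w hw
    exact (BT1_D_has Z hZ t w ⟨ht, hcl hw⟩).differentiableAt.differentiableWithinAt
  have h2 := Complex.norm_deriv_le_of_forall_mem_sphere_norm_le (by norm_num : (0 : ℝ) < 1 / 2) h1
    (fun w hw => hM (t, w) ⟨ht, hcl (sphere_subset_closedBall hw)⟩)
  rw [(BT1_D_has Z hZ t v ⟨ht, hv1⟩).deriv] at h2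
  calc ‖BT1_D Z (t, v)‖ ≤ M / (1 / 2) := h2
    _ = 2 * M := by ring

/-- the slice Laplacian -/
theorem BT1_lap_eq (W : ℂ × ℂ → ℝ) (p : ℂ × ℂ) :
    lap (fun s => W (s, p.2)) p.1 = lev W p (1, 0) := by
  unfold lev
  have h1 : (fun t : ℂ => W (p + t • ((1 : ℂ), (0 : ℂ)))) =
      fun t => (fun s => W (s, p.2)) (p.1 + t) := by
    funext t
    have h2 : p + t • ((1 : ℂ), (0 : ℂ)) = (p.1 + t, p.2) := by
      ext
      · simp
      · simp
    rw [h2]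
  rw [h1]
  have h3 := iteratedFDeriv_comp_add_left (𝕜 := ℝ) (f := fun s => W (s, p.2)) 2 p.1 0
  rw [add_zero] at h3
  unfold lap
  rw [h3]

theorem BT1_lap_cont (W : ℂ × ℂ → ℝ) (hW : ContDiffOn ℝ ∞ W BI) :
    ContinuousOn (fun p : ℂ × ℂ => lap (fun s => W (s, p.2)) p.1) BI := by
  have h0 : (fun p : ℂ × ℂ => lap (fun s => W (s, p.2)) p.1) = fun p => lev W p (1, 0) := by
    funext p
    exact BT1_lap_eq W p
  rw [h0]
  have hg1 : ContDiffOn ℝ ∞ (fderiv ℝ W) BI := hW.fderiv_of_isOpen BT1_open (by simp)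
  have hg2 : ContinuousOn (fderiv ℝ (fderiv ℝ W)) BI :=
    (hg1.fderiv_of_isOpen (m := ∞) BT1_open (by simp)).continuousOn
  have hgvv : ∀ v : ℂ × ℂ, ContinuousOn (fun z => fderiv ℝ (fderiv ℝ W) z v v) BI := fun v =>
    (hg2.clm_apply continuousOn_const).clm_apply continuousOn_const
  have h1 : ContinuousOn (fun p => (1 / 4) * (fderiv ℝ (fderiv ℝ W) p (1, 0) (1, 0) +
      fderiv ℝ (fderiv ℝ W) p (Complex.I • ((1 : ℂ), (0 : ℂ)))
        (Complex.I • ((1 : ℂ), (0 : ℂ))))) BI :=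
    continuousOn_const.mul ((hgvv (1, 0)).add (hgvv (Complex.I • ((1 : ℂ), (0 : ℂ)))))
  refine h1.congr fun p hp => ?_
  exact CHN_lev W p (1, 0) ((hW.contDiffAt (BT1_open.mem_nhds hp)).of_le IS3_two_le)

/-- slices of a smooth function are smooth -/
theorem BT1_slice (W : ℂ × ℂ → ℝ) (hW : ContDiffOn ℝ ∞ W BI) (v : ℂ)
    (hv : v ∈ ball (0 : ℂ) 1) : ContDiffOn ℝ ∞ (fun t => W (t, v)) (ball 0 1) :=
  hW.comp (by fun_prop) fun t ht => ⟨ht, hv⟩

/-- the integrand -/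
noncomputable def BT1_f (Z : ℂ × ℂ → ℂ) (W : ℂ × ℂ → ℝ) (p : ℂ × ℂ) : ℝ :=
  Complex.normSq (BT1_D Z p) * lap (fun s => W (s, p.2)) p.1

theorem BT1_f_cont (Z : ℂ × ℂ → ℂ) (W : ℂ × ℂ → ℝ) (hZ : DifferentiableOn ℂ Z BI)
    (hW : ContDiffOn ℝ ∞ W BI) : ContinuousOn (BT1_f Z W) BI :=
  (Complex.continuous_normSq.comp_continuousOn (BT1_D_diff Z hZ).continuousOn).mul
    (BT1_lap_cont W hW)

/-! ### the good slices -/

/-- the square of radius `9/10` -/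
def BT1_Q : Set (ℂ × ℂ) := ball (0 : ℂ) (9 / 10) ×ˢ ball (0 : ℂ) (9 / 10)

theorem BT1_Q_sub : BT1_Q ⊆ BI :=
  prod_mono (ball_subset_ball (by norm_num)) (ball_subset_ball (by norm_num))

open scoped Classical in
/-- the extended integrand -/
noncomputable def BT1_g (Z : ℂ × ℂ → ℂ) (W : ℂ × ℂ → ℝ) (p : ℂ × ℂ) : ℝ≥0∞ :=
  BT1_Q.indicator (fun p => ENNReal.ofReal (BT1_f Z W p)) p

theorem BT1_Q_meas : MeasurableSet BT1_Q := measurableSet_ball.prod measurableSet_ball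

theorem BT1_g_meas (Z : ℂ × ℂ → ℂ) (W : ℂ × ℂ → ℝ) (hZ : DifferentiableOn ℂ Z BI)
    (hW : ContDiffOn ℝ ∞ W BI) : Measurable (BT1_g Z W) := by
  classical
  have h1 : ContinuousOn (fun p => ENNReal.ofReal (BT1_f Z W p)) BT1_Q :=
    ENNReal.continuous_ofReal.comp_continuousOn ((BT1_f_cont Z W hZ hW).mono BT1_Q_sub)
  have h2 : Measurable (BT1_Q.piecewise (fun p => ENNReal.ofReal (BT1_f Z W p)) 0) :=
    h1.measurable_piecewise continuousOn_const BT1_Q_meas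
  have h3 : BT1_g Z W = BT1_Q.piecewise (fun p => ENNReal.ofReal (BT1_f Z W p)) 0 := by
    funext p
    unfold BT1_g
    rw [Set.piecewise_eq_indicator]
  rw [h3]
  exact h2

/-- the inner integral -/
noncomputable def BT1_J (Z : ℂ × ℂ → ℂ) (W : ℂ × ℂ → ℝ) (v : ℂ) : ℝ≥0∞ :=
  ∫⁻ t, BT1_g Z W (t, v)

theorem BT1_J_meas (Z : ℂ × ℂ → ℂ) (W : ℂ × ℂ → ℝ) (hZ : DifferentiableOn ℂ Z BI)
    (hW : ContDiffOn ℝ ∞ W BI) : Measurable (BT1_J Z W) :=
  (BT1_g_meas Z W hZ hW).lintegral_prod_left'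

theorem BT1_J_int (Z : ℂ × ℂ → ℂ) (W : ℂ × ℂ → ℝ) (hZ : DifferentiableOn ℂ Z BI)
    (hW : ContDiffOn ℝ ∞ W BI) (η : ℝ)
    (h : ∫⁻ p in ball (0 : ℂ) (9 / 10) ×ˢ ball (0 : ℂ) (9 / 10),
      ENNReal.ofReal (Complex.normSq (deriv (fun w => Z (p.1, w)) p.2) *
        lap (fun s => W (s, p.2)) p.1) ≤ ENNReal.ofReal η) :
    ∫⁻ v, BT1_J Z W v ≤ ENNReal.ofReal η := by
  refine le_trans (le_of_eq ?_) h
  have h1 : ∫⁻ p, BT1_g Z W p = ∫⁻ v, BT1_J Z W v := by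
    rw [Measure.volume_eq_prod]
    exact lintegral_prod_symm' _ (BT1_g_meas Z W hZ hW)
  rw [← h1]
  show ∫⁻ p, BT1_Q.indicator (fun p => ENNReal.ofReal (BT1_f Z W p)) p = _
  rw [lintegral_indicator BT1_Q_meas]
  apply setLIntegral_congr_fun BT1_Q_meas
  intro p hp
  show ENNReal.ofReal (BT1_f Z W p) = _
  unfold BT1_f
  have h2 : deriv (fun w => Z (p.1, w)) p.2 = BT1_D Z p :=
    (BT1_D_has Z hZ p.1 p.2 (BT1_Q_sub hp)).deriv
  simp only [h2]

/-- volume of discs -/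
theorem BT1_vol (c : ℂ) (r : ℝ) (hr : 0 ≤ r) : volume.real (ball c r) = Real.pi * r ^ 2 := by
  rw [Measure.real, Complex.volume_ball, ENNReal.toReal_mul, ENNReal.toReal_pow,
    ENNReal.toReal_ofReal hr]
  simp [mul_comm]

/-- the good slices -/
def BT1_G (Z : ℂ × ℂ → ℂ) (W : ℂ × ℂ → ℝ) (R q : ℝ) : Set ℂ :=
  ball (0 : ℂ) (R / 2) ∩ {v | BT1_J Z W v < ENNReal.ofReal (q ^ 4)}

theorem BT1_G_vol (Z : ℂ × ℂ → ℂ) (W : ℂ × ℂ → ℝ) (hZ : DifferentiableOn ℂ Z BI)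
    (hW : ContDiffOn ℝ ∞ W BI) (R q : ℝ) (hR : 0 < R) (hq : 0 < q)
    (hqR : q ^ 4 ≤ Real.pi * R ^ 2 / 8) (h : ∫⁻ v, BT1_J Z W v ≤ ENNReal.ofReal (q ^ 8)) :
    MeasurableSet (BT1_G Z W R q) ∧ Real.pi * R ^ 2 / 8 ≤ volume.real (BT1_G Z W R q) := by
  have hJ := BT1_J_meas Z W hZ hW
  have hm : MeasurableSet (BT1_G Z W R q) :=
    measurableSet_ball.inter (measurableSet_lt hJ measurable_const)
  refine ⟨hm, ?_⟩
  have hq4 : 0 < q ^ 4 := by positivity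
  have h1 := (mul_meas_ge_le_lintegral (μ := volume) hJ (ENNReal.ofReal (q ^ 4))).trans h
  have h2 : volume {v | ENNReal.ofReal (q ^ 4) ≤ BT1_J Z W v} ≤ ENNReal.ofReal (q ^ 4) := by
    have h3 : ENNReal.ofReal (q ^ 8) = ENNReal.ofReal (q ^ 4) * ENNReal.ofReal (q ^ 4) := by
      rw [← ENNReal.ofReal_mul hq4.le]
      congr 1
      ring
    rw [h3] at h1
    exact (ENNReal.mul_le_mul_iff_right (by
      rw [Ne, ENNReal.ofReal_eq_zero, not_le]
      exact hq4) ENNReal.ofReal_ne_top).1 h1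
  have h4 : ball (0 : ℂ) (R / 2) ⊆ BT1_G Z W R q ∪
      {v | ENNReal.ofReal (q ^ 4) ≤ BT1_J Z W v} := by
    intro v hv
    rcases lt_or_ge (BT1_J Z W v) (ENNReal.ofReal (q ^ 4)) with h5 | h5
    · exact Or.inl ⟨hv, h5⟩
    · exact Or.inr h5
  have h5 : volume (ball (0 : ℂ) (R / 2)) ≤ volume (BT1_G Z W R q) + ENNReal.ofReal (q ^ 4) :=
    (measure_mono h4).trans ((measure_union_le _ _).trans (add_le_add le_rfl h2))
  have hfin : volume (BT1_G Z W R q) ≠ ⊤ :=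
    ((measure_mono inter_subset_left).trans_lt measure_ball_lt_top).ne
  have h6 : volume.real (ball (0 : ℂ) (R / 2)) ≤ volume.real (BT1_G Z W R q) + q ^ 4 := by
    have h7 := ENNReal.toReal_mono (ENNReal.add_ne_top.2 ⟨hfin, ENNReal.ofReal_ne_top⟩) h5
    rw [ENNReal.toReal_add hfin ENNReal.ofReal_ne_top, ENNReal.toReal_ofReal hq4.le] at h7
    exact h7
  rw [BT1_vol 0 (R / 2) (by linarith)] at h6
  have h8 : Real.pi * (R / 2) ^ 2 = Real.pi * R ^ 2 / 4 := by ring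
  linarith

/-! ### step 1 -/

theorem BT1_mv (Z : ℂ × ℂ → ℂ) (hZ : DifferentiableOn ℂ Z BI) (C r : ℝ) (hr0 : 0 < r)
    (hr : r ≤ 1) (t : ℂ) (ht : t ∈ ball (0 : ℂ) 1)
    (hC : ∀ w ∈ ball (0 : ℂ) r, ‖BT1_D Z (t, w)‖ ≤ C) (v : ℂ) (hv : v ∈ ball (0 : ℂ) r) :
    ‖Z (t, v) - Z (t, 0)‖ ≤ C * ‖v‖ := by
  have hs : ball (0 : ℂ) r ⊆ ball 0 1 := ball_subset_ball hr
  have h1 := Convex.norm_image_sub_le_of_norm_deriv_le (𝕜 := ℂ) (f := fun w => Z (t, w)) (C := C)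
    (s := ball (0 : ℂ) r) (x := 0) (y := v)
    (fun w hw => (BT1_D_has Z hZ t w ⟨ht, hs hw⟩).differentiableAt)
    (fun w hw => by
      rw [(BT1_D_has Z hZ t w ⟨ht, hs hw⟩).deriv]
      exact hC w hw) (convex_ball _ _) (mem_ball_self hr0) hv
  rw [sub_zero] at h1
  exact h1

theorem BT1_mass (hIB1 : IB1_stmt) (θ : ℂ → ℝ) (hθ : ContDiff ℝ ∞ θ) (hc : HasCompactSupport θ)
    (hs : tsupport θ ⊆ ball 0 1) (hθ0 : ∀ z, 0 ≤ θ z) (hθ1 : ∀ z ∈ ball (0 : ℂ) (1 / 2), θ z = 1)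
    (Z : ℂ × ℂ → ℂ) (W : ℂ × ℂ → ℝ) (M α δ R : ℝ) (hM : 1 ≤ M) (hα : 0 < α)
    (hZ : DifferentiableOn ℂ Z BI) (hW : ContDiffOn ℝ ∞ W BI)
    (hb : ∀ p ∈ BI, ‖Z p‖ ≤ M ∧ |W p| ≤ M ∧ 0 ≤ lap (fun s => W (s, p.2)) p.1)
    (hho : ∀ t ∈ ball (0 : ℂ) 1, ∀ v ∈ ball (0 : ℂ) 1, ∀ v' ∈ ball (0 : ℂ) 1,
      |W (t, v) - W (t, v')| ≤ M * ‖Z (t, v) - Z (t, v')‖ ^ α)
    (hδ : δ ≤ ∫ t in ball (0 : ℂ) (1 / 2), lap (fun s => W (s, 0)) t)
    (hR : R ≤ 1 / 2) (hRδ : (∫ z, |lap θ z|) * (M * (2 * M * R) ^ α) ≤ δ / 2) (v : ℂ)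
    (hv : v ∈ ball (0 : ℂ) R) : δ / 2 ≤ ∫ t, θ t * lap (fun s => W (s, v)) t := by
  have hv2 : v ∈ ball (0 : ℂ) (1 / 2) := ball_subset_ball hR hv
  have hv1 : v ∈ ball (0 : ℂ) 1 := ball_subset_ball (by norm_num) hv2
  have h01 : (0 : ℂ) ∈ ball (0 : ℂ) 1 := mem_ball_self one_pos
  have hθout : ∀ z, z ∉ ball (0 : ℂ) 1 → θ z = 0 := fun z hz =>
    image_eq_zero_of_notMem_tsupport (fun h => hz (hs h))
  have hW0 := BT1_slice W hW 0 h01
  have hWv := BT1_slice W hW v hv1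
  have hlθ : Continuous (lap θ) := IS1_lap_cont θ hθ
  have hlc : HasCompactSupport (lap θ) := by
    apply HasCompactSupport.intro hc
    intro z hz
    exact IS1_lap_zero θ z hz
  have hls : tsupport (lap θ) ⊆ ball (0 : ℂ) 1 := (IS3_tsupp θ).trans hs
  have hi0 : Integrable (fun t => lap θ t * W (t, 0)) :=
    IS3_integrable (ball 0 1) _ _ hlθ.continuousOn hlc hls hW0.continuousOn
  have hiv : Integrable (fun t => lap θ t * W (t, v)) :=
    IS3_integrable (ball 0 1) _ _ hlθ.continuousOn hlc hls hWv.continuousOn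
  have e0 := hIB1 (ball 0 1) θ (fun t => W (t, 0)) isOpen_ball hθ hc hs hW0
  have ev := hIB1 (ball 0 1) θ (fun t => W (t, v)) isOpen_ball hθ hc hs hWv
  have hc0 : ContinuousOn (lap (fun t => W (t, 0))) (ball 0 1) := IS3_lapc _ _ isOpen_ball hW0
  have m0 : δ ≤ ∫ t, θ t * lap (fun s => W (s, 0)) t := by
    refine hδ.trans ?_
    rw [← integral_indicator measurableSet_ball]
    apply integral_mono_of_nonneg
    · refine Eventually.of_forall fun z => ?_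
      apply indicator_nonneg
      intro w hw
      exact (hb (w, 0) ⟨ball_subset_ball (by norm_num) hw, h01⟩).2.2
    · exact IS3_integrable (ball 0 1) θ _ hθ.continuous.continuousOn hc hs hc0
    · refine Eventually.of_forall fun z => ?_
      show indicator (ball 0 (1 / 2)) (lap (fun s => W (s, 0))) z ≤
        θ z * lap (fun s => W (s, 0)) z
      by_cases hz : z ∈ ball (0 : ℂ) (1 / 2)
      · rw [indicator_of_mem hz, hθ1 z hz, one_mul]
      · rw [indicator_of_notMem hz]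
        by_cases hz1 : z ∈ ball (0 : ℂ) 1
        · exact mul_nonneg (hθ0 z) (hb (z, 0) ⟨hz1, h01⟩).2.2
        · rw [hθout z hz1, zero_mul]
  have hdiff : (∫ t, lap θ t * W (t, 0)) - ∫ t, lap θ t * W (t, v) ≤
      (∫ z, |lap θ z|) * (M * (2 * M * R) ^ α) := by
    rw [← integral_sub hi0 hiv, ← integral_mul_const]
    have h1 : (∫ t, (lap θ t * W (t, 0) - lap θ t * W (t, v))) ≤
        ∫ t, |lap θ t * W (t, 0) - lap θ t * W (t, v)| :=
      (le_abs_self _).trans (abs_integral_le_integral_abs)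
    refine h1.trans ?_
    apply integral_mono_of_nonneg (Eventually.of_forall fun z => abs_nonneg _)
      ((hlθ.integrable_of_hasCompactSupport hlc).abs.mul_const _)
    refine Eventually.of_forall fun t => ?_
    show |lap θ t * W (t, 0) - lap θ t * W (t, v)| ≤ |lap θ t| * (M * (2 * M * R) ^ α)
    rw [← mul_sub, abs_mul]
    by_cases ht : t ∈ ball (0 : ℂ) 1
    · apply mul_le_mul_of_nonneg_left _ (abs_nonneg _)
      refine (hho t ht 0 h01 v hv1).trans ?_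
      apply mul_le_mul_of_nonneg_left _ (by linarith)
      apply Real.rpow_le_rpow (norm_nonneg _) _ hα.le
      rw [norm_sub_rev]
      have h2 := BT1_mv Z hZ (2 * M) (1 / 2) (by norm_num) (by norm_num) t ht
        (fun w hw => BT1_D_bd Z M hZ (fun p hp => (hb p hp).1) t w ht hw) v hv2
      refine h2.trans ?_
      apply mul_le_mul_of_nonneg_left _ (by linarith)
      exact (mem_ball_zero_iff.1 hv).le
    · rw [IS1_lap_zero θ t (fun h => ht (hs h))]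
      simp
  rw [ev]
  rw [e0] at m0
  linarith

/-! ### step 2 -/

theorem BT1_slice_int (Z : ℂ × ℂ → ℂ) (W : ℂ × ℂ → ℝ) (hZ : DifferentiableOn ℂ Z BI)
    (hW : ContDiffOn ℝ ∞ W BI) (hb : ∀ p ∈ BI, 0 ≤ lap (fun s => W (s, p.2)) p.1) (v : ℂ)
    (hv : v ∈ ball (0 : ℂ) (9 / 10)) (C : ℝ) (hC : 0 ≤ C)
    (hJ : BT1_J Z W v ≤ ENNReal.ofReal C) :
    IntegrableOn (fun t => BT1_f Z W (t, v)) (ball (0 : ℂ) (9 / 10)) ∧
      ∫ t in ball (0 : ℂ) (9 / 10), BT1_f Z W (t, v) ≤ C := by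
  have hv1 : v ∈ ball (0 : ℂ) 1 := ball_subset_ball (by norm_num) hv
  have hcont : ContinuousOn (fun t => BT1_f Z W (t, v)) (ball 0 1) :=
    (BT1_f_cont Z W hZ hW).comp (by fun_prop) fun t ht => ⟨ht, hv1⟩
  have h1 : IntegrableOn (fun t => BT1_f Z W (t, v)) (ball (0 : ℂ) (9 / 10)) := by
    have h2 : IntegrableOn (fun t => BT1_f Z W (t, v)) (closedBall (0 : ℂ) (9 / 10)) :=
      (hcont.mono (closedBall_subset_ball (by norm_num))).integrableOn_compact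
        (isCompact_closedBall _ _)
    exact h2.mono_set ball_subset_closedBall
  refine ⟨h1, ?_⟩
  rw [← ENNReal.ofReal_le_ofReal_iff hC, ofReal_integral_eq_lintegral_ofReal h1]
  · refine le_trans (le_of_eq ?_) hJ
    unfold BT1_J
    rw [← lintegral_indicator measurableSet_ball]
    congr 1
    funext t
    unfold BT1_g
    by_cases ht : t ∈ ball (0 : ℂ) (9 / 10)
    · rw [indicator_of_mem ht, indicator_of_mem (show (t, v) ∈ BT1_Q from ⟨ht, hv⟩)]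
    · rw [indicator_of_notMem ht, indicator_of_notMem (fun h : (t, v) ∈ BT1_Q => ht h.1)]
  · rw [Filter.EventuallyLE, ae_restrict_iff' measurableSet_ball]
    refine Eventually.of_forall fun t ht => ?_
    show 0 ≤ BT1_f Z W (t, v)
    exact mul_nonneg (Complex.normSq_nonneg _)
      (hb (t, v) ⟨ball_subset_ball (by norm_num) ht, hv1⟩)

theorem BT1_good (θ : ℂ → ℝ) (hθ : ContDiff ℝ ∞ θ) (hc : HasCompactSupport θ)
    (hs : tsupport θ ⊆ ball 0 (5 / 8)) (hθ0 : ∀ z, 0 ≤ θ z) (hθle : ∀ z, θ z ≤ 1)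
    (Z : ℂ × ℂ → ℂ) (W : ℂ × ℂ → ℝ) (M δ R q K c : ℝ) (hM : 1 ≤ M)
    (hZ : DifferentiableOn ℂ Z BI) (hW : ContDiffOn ℝ ∞ W BI)
    (hb : ∀ p ∈ BI, ‖Z p‖ ≤ M ∧ |W p| ≤ M ∧ 0 ≤ lap (fun s => W (s, p.2)) p.1)
    (hR : R ≤ 1 / 2) (hq : q = 2 * M * Real.exp (-K)) (hqδ : q ^ 2 ≤ δ / 4)
    (hB : ∀ (φ : ℂ → ℂ) (w : ℂ → ℝ), DifferentiableOn ℂ φ (ball 0 1) →
      (∀ z ∈ ball (0 : ℂ) 1, ‖φ z‖ ≤ 1) → ContDiffOn ℝ ∞ w (ball 0 1) →
      (∀ z ∈ ball (0 : ℂ) 1, 0 ≤ lap w z ∧ |w z| ≤ M) →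
      δ / 4 ≤ ∫ z in ball (0 : ℂ) (3 / 4) ∩ {z | ‖φ z‖ ≤ Real.exp (-K)}, lap w z →
      ∀ z ∈ ball (0 : ℂ) (1 / 2), ‖φ z‖ ≤ Real.exp (-(c * K)))
    (v : ℂ) (hv : v ∈ BT1_G Z W R q) (hm : δ / 2 ≤ ∫ t, θ t * lap (fun s => W (s, v)) t) :
    ∀ t ∈ ball (0 : ℂ) (1 / 2), ‖BT1_D Z (t, v)‖ ≤ 2 * M * Real.exp (-(c * K)) := by
  obtain ⟨hvR, hvJ⟩ := hv
  have hvJ' : BT1_J Z W v < ENNReal.ofReal (q ^ 4) := hvJ
  have hv2 : v ∈ ball (0 : ℂ) (1 / 2) := ball_subset_ball (by linarith) hvR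
  have hv9 : v ∈ ball (0 : ℂ) (9 / 10) := ball_subset_ball (by norm_num) hv2
  have hv1 : v ∈ ball (0 : ℂ) 1 := ball_subset_ball (by norm_num) hv2
  have hM0 : 0 < 2 * M := by linarith
  have hq0 : 0 < q := by
    rw [hq]
    positivity
  obtain ⟨hfi, hfle⟩ := BT1_slice_int Z W hZ hW (fun p hp => (hb p hp).2.2) v hv9 (q ^ 4)
    (by positivity) hvJ'.le
  have hDc : DifferentiableOn ℂ (fun t => BT1_D Z (t, v)) (ball 0 1) := by
    refine (BT1_D_diff Z hZ).comp ?_ fun t ht => ⟨ht, hv1⟩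
    have : Differentiable ℂ (fun t : ℂ => ((t, v) : ℂ × ℂ)) := by fun_prop
    exact this.differentiableOn
  have hφd : DifferentiableOn ℂ (fun t => BT1_D Z (t, v) / ((2 * M : ℝ) : ℂ)) (ball 0 1) :=
    hDc.div_const _
  have hφn : ∀ t, ‖BT1_D Z (t, v) / ((2 * M : ℝ) : ℂ)‖ = ‖BT1_D Z (t, v)‖ / (2 * M) := by
    intro t
    rw [norm_div, Complex.norm_real, Real.norm_eq_abs, abs_of_pos hM0]
  have hw := BT1_slice W hW v hv1
  have hwl : ∀ z ∈ ball (0 : ℂ) 1, 0 ≤ lap (fun s => W (s, v)) z := fun z hz =>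
    (hb (z, v) ⟨hz, hv1⟩).2.2
  have hlc : ContinuousOn (lap (fun s => W (s, v))) (ball 0 1) := IS3_lapc _ _ isOpen_ball hw
  -- the set
  obtain ⟨S, hS⟩ : ∃ S : Set ℂ, S = ball (0 : ℂ) (3 / 4) ∩
      {z | ‖BT1_D Z (z, v) / ((2 * M : ℝ) : ℂ)‖ ≤ Real.exp (-K)} := ⟨_, rfl⟩
  have hSm : MeasurableSet S := by
    have h1 : IsOpen (ball (0 : ℂ) 1 ∩
        (fun z => ‖BT1_D Z (z, v) / ((2 * M : ℝ) : ℂ)‖) ⁻¹' Ioi (Real.exp (-K))) :=
      hφd.continuousOn.norm.isOpen_inter_preimage isOpen_ball isOpen_Ioi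
    have h2 : S = ball (0 : ℂ) (3 / 4) \ (ball (0 : ℂ) 1 ∩
        (fun z => ‖BT1_D Z (z, v) / ((2 * M : ℝ) : ℂ)‖) ⁻¹' Ioi (Real.exp (-K))) := by
      rw [hS]
      ext z
      constructor
      · rintro ⟨hz, hz2⟩
        refine ⟨hz, fun hcon => ?_⟩
        have h3 : ‖BT1_D Z (z, v) / ((2 * M : ℝ) : ℂ)‖ ≤ Real.exp (-K) := hz2
        have h4 : Real.exp (-K) < ‖BT1_D Z (z, v) / ((2 * M : ℝ) : ℂ)‖ := hcon.2
        exact absurd h3 (not_le.2 h4)
      · rintro ⟨hz, hz2⟩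
        refine ⟨hz, ?_⟩
        by_contra hcon
        apply hz2
        have h3 : ¬ ‖BT1_D Z (z, v) / ((2 * M : ℝ) : ℂ)‖ ≤ Real.exp (-K) := hcon
        have h4 : Real.exp (-K) < ‖BT1_D Z (z, v) / ((2 * M : ℝ) : ℂ)‖ := not_le.1 h3
        exact ⟨ball_subset_ball (by norm_num) hz, h4⟩
    rw [h2]
    exact measurableSet_ball.diff h1.measurableSet
  have hSsub : S ⊆ ball (0 : ℂ) (3 / 4) := by
    rw [hS]
    exact inter_subset_left
  have hLi : IntegrableOn (lap (fun s => W (s, v))) S := by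
    have h1 : IntegrableOn (lap (fun s => W (s, v))) (closedBall (0 : ℂ) (3 / 4)) :=
      (hlc.mono (closedBall_subset_ball (by norm_num))).integrableOn_compact
        (isCompact_closedBall _ _)
    exact h1.mono_set (hSsub.trans ball_subset_closedBall)
  have hmain : ∫ t, θ t * lap (fun s => W (s, v)) t ≤
      (∫ z in S, lap (fun s => W (s, v)) z) +
        1 / q ^ 2 * ∫ t in ball (0 : ℂ) (9 / 10), BT1_f Z W (t, v) := by
    rw [← integral_indicator hSm, ← integral_indicator measurableSet_ball,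
      ← integral_const_mul, ← integral_add ((integrable_indicator_iff hSm).2 hLi)
        (((integrable_indicator_iff measurableSet_ball).2 hfi).const_mul _)]
    apply integral_mono (IS3_integrable (ball 0 1) θ _ hθ.continuous.continuousOn hc
      (hs.trans (ball_subset_ball (by norm_num))) hlc)
      (((integrable_indicator_iff hSm).2 hLi).add
        (((integrable_indicator_iff measurableSet_ball).2 hfi).const_mul _))
    intro t
    show θ t * lap (fun s => W (s, v)) t ≤ S.indicator (lap (fun s => W (s, v))) t +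
      1 / q ^ 2 * (ball (0 : ℂ) (9 / 10)).indicator (fun t => BT1_f Z W (t, v)) t
    have hn1 : 0 ≤ S.indicator (lap (fun s => W (s, v))) t := by
      apply indicator_apply_nonneg
      intro ht
      exact hwl t (ball_subset_ball (by norm_num) (hSsub ht))
    have hn2 : 0 ≤ 1 / q ^ 2 *
        (ball (0 : ℂ) (9 / 10)).indicator (fun t => BT1_f Z W (t, v)) t := by
      apply mul_nonneg (by positivity)
      apply indicator_apply_nonneg
      intro ht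
      exact mul_nonneg (Complex.normSq_nonneg _)
        (hwl t (ball_subset_ball (by norm_num) ht))
    by_cases ht : t ∈ ball (0 : ℂ) (5 / 8)
    · have ht1 : t ∈ ball (0 : ℂ) 1 := ball_subset_ball (by norm_num) ht
      have hl := hwl t ht1
      have h1 : θ t * lap (fun s => W (s, v)) t ≤ 1 * lap (fun s => W (s, v)) t :=
        mul_le_mul_of_nonneg_right (hθle t) hl
      by_cases htS : t ∈ S
      · rw [indicator_of_mem htS] at hn1 ⊢
        linarith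
      · have h2 : q < ‖BT1_D Z (t, v)‖ := by
          by_contra hcon
          apply htS
          rw [hS]
          refine ⟨ball_subset_ball (by norm_num) ht, ?_⟩
          show ‖BT1_D Z (t, v) / ((2 * M : ℝ) : ℂ)‖ ≤ Real.exp (-K)
          rw [hφn, div_le_iff₀ hM0]
          rw [not_lt, hq] at hcon
          linarith
        have h3 : q ^ 2 ≤ Complex.normSq (BT1_D Z (t, v)) := by
          rw [Complex.normSq_eq_norm_sq]
          exact pow_le_pow_left₀ hq0.le h2.le 2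
        rw [indicator_of_mem (show t ∈ ball (0 : ℂ) (9 / 10) from
          ball_subset_ball (by norm_num) ht)]
        have h4 : lap (fun s => W (s, v)) t ≤ 1 / q ^ 2 * BT1_f Z W (t, v) := by
          rw [one_div, inv_mul_eq_div, le_div_iff₀ (by positivity)]
          unfold BT1_f
          rw [mul_comm]
          exact mul_le_mul_of_nonneg_right h3 hl
        linarith
    · have h1 : θ t = 0 := image_eq_zero_of_notMem_tsupport (fun h => ht (hs h))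
      rw [h1, zero_mul]
      linarith
  have hSδ : δ / 4 ≤ ∫ z in S, lap (fun s => W (s, v)) z := by
    have h1 : 1 / q ^ 2 * ∫ t in ball (0 : ℂ) (9 / 10), BT1_f Z W (t, v) ≤
        1 / q ^ 2 * q ^ 4 := mul_le_mul_of_nonneg_left hfle (by positivity)
    have h2 : 1 / q ^ 2 * q ^ 4 = q ^ 2 := by field_simp
    linarith
  rw [hS] at hSδ
  have hfin := hB (fun t => BT1_D Z (t, v) / ((2 * M : ℝ) : ℂ)) (fun s => W (s, v)) hφd
    (fun z hz => by
      show ‖BT1_D Z (z, v) / ((2 * M : ℝ) : ℂ)‖ ≤ 1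
      rw [hφn, div_le_one hM0]
      exact BT1_D_bd Z M hZ (fun p hp => (hb p hp).1) z v hz hv2) hw
    (fun z hz => ⟨hwl z hz, (hb (z, v) ⟨hz, hv1⟩).2.1⟩) hSδ
  intro t ht
  have h1 : ‖BT1_D Z (t, v) / ((2 * M : ℝ) : ℂ)‖ ≤ Real.exp (-(c * K)) := hfin t ht
  rw [hφn, div_le_iff₀ hM0] at h1
  linarith

/-! ### step 3 -/

theorem BT1_jensen (hBJE : BJE_stmt) (f : ℂ → ℂ) (M R x : ℝ) (G : Set ℂ) (hM : 1 ≤ M)
    (hR : 0 < R) (hR4 : R ≤ 1 / 4) (hx : 0 ≤ x) (hf : DifferentiableOn ℂ f (ball 0 1))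
    (hfM : ∀ w ∈ ball (0 : ℂ) (1 / 2), ‖f w‖ ≤ 2 * M) (hGm : MeasurableSet G)
    (hGs : G ⊆ ball 0 (R / 2)) (hGv : Real.pi * R ^ 2 / 8 ≤ volume.real G)
    (hG : ∀ w ∈ G, ‖f w‖ ≤ 2 * M * Real.exp (-x)) (v : ℂ) (hv : v ∈ ball (0 : ℂ) (1 / 8)) :
    ‖f v‖ ≤ 2 * M * Real.exp (-(2 * R ^ 2 * x)) := by
  by_cases hfv : f v = 0
  · rw [hfv, norm_zero]
    positivity
  have hv8 := mem_ball_zero_iff.1 hv
  have hb2 : ball v (1 / 2) ⊆ ball (0 : ℂ) 1 := by
    intro w hw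
    rw [mem_ball_iff_norm] at hw
    rw [mem_ball_zero_iff]
    calc ‖w‖ = ‖(w - v) + v‖ := by rw [sub_add_cancel]
      _ ≤ ‖w - v‖ + ‖v‖ := norm_add_le _ _
      _ < 1 := by linarith
  have hb4 : ball v (1 / 4) ⊆ ball (0 : ℂ) (1 / 2) := by
    intro w hw
    rw [mem_ball_iff_norm] at hw
    rw [mem_ball_zero_iff]
    calc ‖w‖ = ‖(w - v) + v‖ := by rw [sub_add_cancel]
      _ ≤ ‖w - v‖ + ‖v‖ := norm_add_le _ _
      _ < 1 / 2 := by linarith
  have hGb : G ⊆ ball v (1 / 4) := by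
    intro w hw
    have h1 := mem_ball_zero_iff.1 (hGs hw)
    rw [mem_ball_iff_norm]
    calc ‖w - v‖ ≤ ‖w‖ + ‖v‖ := norm_sub_le _ _
      _ < 1 / 4 := by linarith
  obtain ⟨hi, hj⟩ := hBJE f v (1 / 4) (1 / 2) (by norm_num) (by norm_num) (hf.mono hb2) hfv
  have hM0 : 0 < 2 * M := by linarith
  have hlogM : 0 ≤ Real.log (2 * M) := Real.log_nonneg (by linarith)
  have hne : ∀ᵐ w ∂(volume.restrict (ball v (1 / 4))), f w ≠ 0 := by
    have hv1 : v ∈ ball (0 : ℂ) 1 := ball_subset_ball (by norm_num) hv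
    have hco : f ⁻¹' {0}ᶜ ∈ codiscreteWithin (ball (0 : ℂ) 1) :=
      (hf.analyticOnNhd isOpen_ball).preimage_zero_mem_codiscreteWithin hfv hv1
        ⟨⟨0, mem_ball_self one_pos⟩, (convex_ball (0 : ℂ) 1).isPreconnected⟩
    have h1 := ae_restrict_le_codiscreteWithin (μ := volume)
      (measurableSet_ball (x := (0 : ℂ)) (ε := 1)) hco
    have h2 : ∀ᵐ w ∂(volume.restrict (ball (0 : ℂ) 1)), f w ≠ 0 := by
      filter_upwards [h1] with z hz
      exact hz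
    exact ae_restrict_of_ae_restrict_of_subset
      (hb4.trans (ball_subset_ball (by norm_num))) h2
  have hfinb : volume (ball v (1 / 4)) ≠ ⊤ := measure_ball_lt_top.ne
  have hci : IntegrableOn (fun _ : ℂ => Real.log (2 * M)) (ball v (1 / 4)) :=
    integrableOn_const hfinb
  have hgi : IntegrableOn (G.indicator (fun _ : ℂ => -x)) (ball v (1 / 4)) :=
    (integrableOn_const hfinb).indicator hGm
  have h1 : ∫ w in ball v (1 / 4), Real.log ‖f w‖ ≤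
      ∫ w in ball v (1 / 4), (Real.log (2 * M) + G.indicator (fun _ : ℂ => -x) w) := by
    apply integral_mono_ae hi (hci.add hgi)
    filter_upwards [hne, ae_restrict_mem measurableSet_ball] with w hw hwb
    have hpos : 0 < ‖f w‖ := norm_pos_iff.2 hw
    by_cases hwG : w ∈ G
    · show Real.log ‖f w‖ ≤ Real.log (2 * M) + G.indicator (fun _ : ℂ => -x) w
      rw [indicator_of_mem hwG]
      have h2 := Real.log_le_log hpos (hG w hwG)
      rw [Real.log_mul hM0.ne' (Real.exp_pos _).ne', Real.log_exp] at h2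
      exact h2
    · show Real.log ‖f w‖ ≤ Real.log (2 * M) + G.indicator (fun _ : ℂ => -x) w
      rw [indicator_of_notMem hwG, add_zero]
      exact Real.log_le_log hpos (hfM w (hb4 hwb))
  have h2 : ∫ w in ball v (1 / 4), (Real.log (2 * M) + G.indicator (fun _ : ℂ => -x) w) =
      volume.real (ball v (1 / 4)) * Real.log (2 * M) - volume.real G * x := by
    rw [integral_add hci hgi, setIntegral_const, smul_eq_mul, setIntegral_indicator hGm,
      inter_eq_self_of_subset_right hGb, setIntegral_const, smul_eq_mul]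
    ring
  rw [h2, BT1_vol v (1 / 4) (by norm_num)] at h1
  have h3 : ⨍ w in ball v (1 / 4), Real.log ‖f w‖ =
      (Real.pi * (1 / 4) ^ 2)⁻¹ * ∫ w in ball v (1 / 4), Real.log ‖f w‖ := by
    rw [setAverage_eq, smul_eq_mul, BT1_vol v (1 / 4) (by norm_num)]
  rw [h3] at hj
  have hpi := Real.pi_pos
  have h4 : Real.log ‖f v‖ ≤ Real.log (2 * M) - 2 * R ^ 2 * x := by
    have h5 : (Real.pi * (1 / 4) ^ 2)⁻¹ * (∫ w in ball v (1 / 4), Real.log ‖f w‖) ≤
        (Real.pi * (1 / 4) ^ 2)⁻¹ * (Real.pi * (1 / 4) ^ 2 * Real.log (2 * M) -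
          Real.pi * R ^ 2 / 8 * x) := by
      apply mul_le_mul_of_nonneg_left _ (by positivity)
      have h6 := mul_le_mul_of_nonneg_right hGv hx
      linarith
    have h6 : (Real.pi * (1 / 4) ^ 2)⁻¹ * (Real.pi * (1 / 4) ^ 2 * Real.log (2 * M) -
        Real.pi * R ^ 2 / 8 * x) = Real.log (2 * M) - 2 * R ^ 2 * x := by
      field_simp
      ring
    linarith
  have hpos : 0 < ‖f v‖ := norm_pos_iff.2 hfv
  have h5 : Real.log (2 * M * Real.exp (-(2 * R ^ 2 * x))) =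
      Real.log (2 * M) - 2 * R ^ 2 * x := by
    rw [Real.log_mul hM0.ne' (Real.exp_pos _).ne', Real.log_exp]
    ring
  rw [← h5] at h4
  exact (Real.log_le_log_iff hpos (by positivity)).1 h4

/-! ### parameters -/

theorem BT1_param_R (M α δ I : ℝ) (hM : 1 ≤ M) (hα : 0 < α) (hδ : 0 < δ) (hI : 0 ≤ I) :
    ∃ R : ℝ, 0 < R ∧ R ≤ 1 / 4 ∧ I * (M * (2 * M * R) ^ α) ≤ δ / 2 := by
  have h1 : 0 < δ / (2 * (I + 1) * M) := by positivity
  have h2 : 0 < (δ / (2 * (I + 1) * M)) ^ (1 / α) := Real.rpow_pos_of_pos h1 _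
  refine ⟨min (1 / 4) ((δ / (2 * (I + 1) * M)) ^ (1 / α) / (2 * M)), lt_min (by norm_num)
    (by positivity), min_le_left _ _, ?_⟩
  have h3 : 2 * M * min (1 / 4) ((δ / (2 * (I + 1) * M)) ^ (1 / α) / (2 * M)) ≤
      (δ / (2 * (I + 1) * M)) ^ (1 / α) := by
    calc 2 * M * min (1 / 4) ((δ / (2 * (I + 1) * M)) ^ (1 / α) / (2 * M))
        ≤ 2 * M * ((δ / (2 * (I + 1) * M)) ^ (1 / α) / (2 * M)) :=
          mul_le_mul_of_nonneg_left (min_le_right _ _) (by linarith)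
      _ = _ := by field_simp
  have h4 : (2 * M * min (1 / 4) ((δ / (2 * (I + 1) * M)) ^ (1 / α) / (2 * M))) ^ α ≤
      δ / (2 * (I + 1) * M) := by
    have h5 : 0 ≤ 2 * M * min (1 / 4) ((δ / (2 * (I + 1) * M)) ^ (1 / α) / (2 * M)) := by
      apply mul_nonneg (by linarith)
      exact le_min (by norm_num) (by positivity)
    have h6 := Real.rpow_le_rpow h5 h3 hα.le
    rw [← Real.rpow_mul h1.le, one_div_mul_cancel hα.ne', Real.rpow_one] at h6
    exact h6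
  calc I * (M * (2 * M * min (1 / 4) ((δ / (2 * (I + 1) * M)) ^ (1 / α) / (2 * M))) ^ α)
      ≤ I * (M * (δ / (2 * (I + 1) * M))) := by gcongr
    _ = I / (I + 1) * (δ / 2) := by field_simp
    _ ≤ 1 * (δ / 2) := by
        apply mul_le_mul_of_nonneg_right _ (by linarith)
        rw [div_le_one (by linarith)]
        linarith
    _ = δ / 2 := one_mul _

theorem BT1_param_K (M δ σ R c K0 : ℝ) (hM : 1 ≤ M) (hδ : 0 < δ) (hσ : 0 < σ) (hR : 0 < R)
    (hc : 0 < c) : ∃ K : ℝ, K0 ≤ K ∧ 0 ≤ K ∧ (2 * M * Real.exp (-K)) ^ 2 ≤ δ / 4 ∧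
      (2 * M * Real.exp (-K)) ^ 4 ≤ Real.pi * R ^ 2 / 8 ∧
      2 * M * Real.exp (-(2 * R ^ 2 * (c * K))) ≤ σ := by
  have hpi := Real.pi_pos
  have t1 : Tendsto (fun K : ℝ => 2 * M * Real.exp (-K)) atTop (𝓝 (2 * M * 0)) :=
    (Real.tendsto_exp_neg_atTop_nhds_zero).const_mul _
  rw [mul_zero] at t1
  have t2 : Tendsto (fun K : ℝ => (2 * M * Real.exp (-K)) ^ 2) atTop (𝓝 (0 ^ 2)) := t1.pow 2
  have t4 : Tendsto (fun K : ℝ => (2 * M * Real.exp (-K)) ^ 4) atTop (𝓝 (0 ^ 4)) := t1.pow 4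
  rw [zero_pow (by norm_num)] at t2 t4
  have t5 : Tendsto (fun K : ℝ => 2 * R ^ 2 * (c * K)) atTop atTop := by
    have h1 : (fun K : ℝ => 2 * R ^ 2 * (c * K)) = fun K => (2 * R ^ 2 * c) * K := by
      funext K
      ring
    rw [h1]
    exact tendsto_id.const_mul_atTop (by positivity)
  have t6 : Tendsto (fun K : ℝ => 2 * M * Real.exp (-(2 * R ^ 2 * (c * K)))) atTop
      (𝓝 (2 * M * 0)) := (Real.tendsto_exp_neg_atTop_nhds_zero.comp t5).const_mul _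
  rw [mul_zero] at t6
  have e1 := t2.eventually (gt_mem_nhds (show (0 : ℝ) < δ / 4 by positivity))
  have e2 := t4.eventually (gt_mem_nhds (show (0 : ℝ) < Real.pi * R ^ 2 / 8 by positivity))
  have e3 := t6.eventually (gt_mem_nhds hσ)
  obtain ⟨K, h1, h2, h3, h4, h5⟩ := (((eventually_ge_atTop K0).and
    ((eventually_ge_atTop 0).and (e1.and (e2.and e3))))).exists
  exact ⟨K, h1, h2, h3.le, h4.le, h5.le⟩

/-! ### the theorem -/

/-- BT1 -/
theorem BT1 (hIB1 : IB1_stmt) (hBJE : BJE_stmt) (hBTW : BTW_stmt) : BT1_stmt := by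
  intro M α δ σ hM hα _ hδ hσ
  let f : ContDiffBump (0 : ℂ) := ⟨1 / 2, 6 / 10, by norm_num, by norm_num⟩
  have hθ : ContDiff ℝ ∞ (f : ℂ → ℝ) := f.contDiff
  have hθc : HasCompactSupport (f : ℂ → ℝ) := f.hasCompactSupport
  have hθs : tsupport (f : ℂ → ℝ) ⊆ ball 0 (5 / 8) := by
    rw [f.tsupport_eq]
    exact closedBall_subset_ball (by norm_num [f])
  have hθ0 : ∀ z, 0 ≤ f z := fun z => f.nonneg
  have hθle : ∀ z, f z ≤ 1 := fun z => f.le_one
  have hθ1 : ∀ z ∈ ball (0 : ℂ) (1 / 2), f z = 1 := fun z hz =>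
    f.one_of_mem_closedBall (ball_subset_closedBall hz)
  generalize (f : ℂ → ℝ) = θ at hθ hθc hθs hθ0 hθle hθ1
  clear f
  have hI : 0 ≤ ∫ z, |lap θ z| := integral_nonneg fun z => abs_nonneg _
  obtain ⟨R, hR, hR4, hRδ⟩ := BT1_param_R M α δ (∫ z, |lap θ z|) hM hα hδ hI
  obtain ⟨c, K0, hc, hB⟩ := hBTW M (δ / 4) (by linarith) (by linarith)
  obtain ⟨K, hK0, hK, hq2, hq4, hqσ⟩ := BT1_param_K M δ σ R c K0 hM hδ hσ hR hc
  have hq : 0 < 2 * M * Real.exp (-K) := by positivity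
  refine ⟨(2 * M * Real.exp (-K)) ^ 8, by positivity, ?_⟩
  intro Z W hZ hW hb hho hmass harea
  have hJ := BT1_J_int Z W hZ hW _ harea
  obtain ⟨hGm, hGv⟩ := BT1_G_vol Z W hZ hW R (2 * M * Real.exp (-K)) hR hq hq4 hJ
  have hgood : ∀ v ∈ BT1_G Z W R (2 * M * Real.exp (-K)), ∀ t ∈ ball (0 : ℂ) (1 / 2),
      ‖BT1_D Z (t, v)‖ ≤ 2 * M * Real.exp (-(c * K)) := by
    intro v hv
    refine BT1_good θ hθ hθc hθs hθ0 hθle Z W M δ R (2 * M * Real.exp (-K)) K c hM hZ hW hb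
      (by linarith) rfl hq2 (fun φ w h1 h2 h3 h4 h5 => hB φ w K h1 h2 h3 h4 hK0 h5) v hv ?_
    refine BT1_mass hIB1 θ hθ hθc (hθs.trans (ball_subset_ball (by norm_num))) hθ0 hθ1 Z W M α
      δ R hM hα hZ hW hb hho hmass (by linarith) hRδ v ?_
    exact ball_subset_ball (by linarith) hv.1
  intro t ht v hv
  have ht1 : t ∈ ball (0 : ℂ) 1 := ball_subset_ball (by norm_num) ht
  have hDd : DifferentiableOn ℂ (fun w => BT1_D Z (t, w)) (ball 0 1) := by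
    refine (BT1_D_diff Z hZ).comp ?_ fun w hw => ⟨ht1, hw⟩
    have : Differentiable ℂ (fun w : ℂ => ((t, w) : ℂ × ℂ)) := by fun_prop
    exact this.differentiableOn
  have hsmall : ∀ w ∈ ball (0 : ℂ) (1 / 8), ‖BT1_D Z (t, w)‖ ≤ σ := fun w hw =>
    (BT1_jensen hBJE (fun w => BT1_D Z (t, w)) M R (c * K) (BT1_G Z W R (2 * M * Real.exp (-K)))
      hM hR hR4 (by positivity) hDd
      (fun u hu => BT1_D_bd Z M hZ (fun p hp => (hb p hp).1) t u ht1 hu) hGm inter_subset_left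
      hGv (fun u hu => hgood u hu t ht) w hw).trans hqσ
  have h1 := BT1_mv Z hZ σ (1 / 8) (by norm_num) (by norm_num) t ht1 hsmall v hv
  have h2 : ‖v‖ ≤ 1 := by
    have := mem_ball_zero_iff.1 hv
    linarith
  calc ‖Z (t, v) - Z (t, 0)‖ ≤ σ * ‖v‖ := h1
    _ ≤ σ * 1 := mul_le_mul_of_nonneg_left h2 hσ.le
    _ = σ := mul_one σ

end Pool.Agent.P2B
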