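import Pool.Agent.helper15.P2.SpecC
import Pool.Agent.helper82.P2.IS2
import Pool.Agent.helper48.P2.IS3

set_option autoImplicit false

/-!
# P2: row BTR, transfer of the existence of bands to the finer level
-/

open scoped ContDiff Topology ComplexConjugate ENNReal
open MeasureTheory Filter Set Metric

namespace Pool.Agent.P2B

open Pool.Agent.P2 Pool.Agent.P2I

/-! ### the functions -/

/-- the supremum -/
noncomputable def BTR_s (P Q : ℂ × ℂ → ℂ) (κ r : ℝ) (x : ℂ) : ℝ :=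
  ⨆ n : {n : ℕ × ℕ // n ≠ 0},
    Real.log (‖cf P Q n.1.1 n.1.2 x‖ * κ ^ n.1.1 * r ^ n.1.2) / ((n.1.1 : ℝ) + n.1.2)

theorem BTR_Ph (P Q : ℂ × ℂ → ℂ) (κ r L : ℝ) (x : ℂ) :
    Ph P Q κ r L x = max L (BTR_s P Q κ r x) := rfl

/-- the subharmonic function -/
noncomputable def BTR_S (P Q : ℂ × ℂ → ℂ) (κ r L : ℝ) (x : ℂ) : ℝ :=
  Ph P Q κ r L x + 4 * Real.log ‖Wr (sl P 0) (sl Q 0) x‖ - L

/-- the cut-off -/
noncomputable def BTR_H (P Q : ℂ × ℂ → ℂ) (κ r L : ℝ) (x : ℂ) : ℝ :=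
  1 / L * (BTR_S P Q κ r 0 x - BTR_S P Q κ r L x)

theorem BTR_H_prop (P Q : ℂ × ℂ → ℂ) (κ r L : ℝ) (x : ℂ) (hL : 0 < L) :
    0 ≤ BTR_H P Q κ r L x ∧ BTR_H P Q κ r L x ≤ 1 ∧
      (L ≤ BTR_s P Q κ r x → BTR_H P Q κ r L x = 1) ∧
      (BTR_s P Q κ r x ≤ 0 → BTR_H P Q κ r L x = 0) := by
  have h0 : BTR_H P Q κ r L x =
      1 / L * (max 0 (BTR_s P Q κ r x) - max L (BTR_s P Q κ r x) + L) := by
    unfold BTR_H BTR_S
    rw [BTR_Ph, BTR_Ph]
    ring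
  rw [h0]
  generalize BTR_s P Q κ r x = s
  have hL1 : 1 / L * L = 1 := by field_simp
  have hL2 : 0 ≤ 1 / L := by positivity
  refine ⟨?_, ?_, ?_, ?_⟩
  · apply mul_nonneg hL2
    rcases le_total s 0 with h1 | h1
    · rw [max_eq_left h1, max_eq_left (h1.trans hL.le)]
      linarith
    · rw [max_eq_right h1]
      rcases le_total s L with h2 | h2
      · rw [max_eq_left h2]
        linarith
      · rw [max_eq_right h2]
        linarith
  · refine le_trans ?_ hL1.le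
    apply mul_le_mul_of_nonneg_left _ hL2
    rcases le_total s 0 with h1 | h1
    · rw [max_eq_left h1, max_eq_left (h1.trans hL.le)]
      linarith
    · rw [max_eq_right h1]
      rcases le_total s L with h2 | h2
      · rw [max_eq_left h2]
        linarith
      · rw [max_eq_right h2]
        linarith
  · intro h2
    rw [max_eq_right h2, max_eq_right (hL.le.trans h2), sub_self, zero_add, hL1]
  · intro h1
    rw [max_eq_left h1, max_eq_left (h1.trans hL.le)]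
    ring

/-! ### integrals -/

theorem BTR_lap_const (z : ℂ) : lap (fun _ : ℂ => (1 : ℝ)) z = 0 := by
  unfold lap
  rw [iteratedFDeriv_const_of_ne (by norm_num)]
  simp

theorem BTR_lap_int (hIB1 : IB1_stmt) (χ : ℂ → ℝ) (hχ : ContDiff ℝ ∞ χ)
    (hc : HasCompactSupport χ) : ∫ z, lap χ z = 0 := by
  have h := hIB1 univ χ (fun _ => (1 : ℝ)) isOpen_univ hχ hc (subset_univ _) contDiffOn_const
  have h1 : (fun z => χ z * lap (fun _ : ℂ => (1 : ℝ)) z) = fun _ => 0 := by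
    funext z
    rw [BTR_lap_const, mul_zero]
  rw [h1, integral_zero] at h
  have h2 : (fun z => lap χ z * 1) = lap χ := by
    funext z
    rw [mul_one]
  rw [h2] at h
  exact h.symm

theorem BTR_lap_cs (χ : ℂ → ℝ) (hc : HasCompactSupport χ) : HasCompactSupport (lap χ) := by
  apply HasCompactSupport.intro hc
  intro z hz
  exact IS1_lap_zero χ z hz

theorem BTR_lap_integrable (χ : ℂ → ℝ) (hχ : ContDiff ℝ ∞ χ) (hc : HasCompactSupport χ) :
    Integrable (lap χ) :=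
  (IS1_lap_cont χ hχ).integrable_of_hasCompactSupport (BTR_lap_cs χ hc)

/-- weak subharmonicity after subtraction of a constant -/
theorem BTR_weak (hIB1 : IB1_stmt) (χ g : ℂ → ℝ) (L : ℝ) (hχ : ContDiff ℝ ∞ χ)
    (hc : HasCompactSupport χ) (hs : tsupport χ ⊆ ball 0 (4 / 5))
    (hg : IntegrableOn g (ball 0 (4 / 5))) (h0 : 0 ≤ ∫ z, lap χ z * g z) :
    0 ≤ ∫ z, lap χ z * (g z - L) := by
  have h1 := IS2_int (lap χ) (fun _ => (1 : ℝ)) g (IS1_lap_cont χ hχ) (BTR_lap_cs χ hc)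
    ((IS3_tsupp χ).trans hs) (fun z _ => continuousAt_const) hg
  have h2 : (fun z => lap χ z * g z * (1 : ℝ)) = fun z => lap χ z * g z := by
    funext z
    rw [mul_one]
  rw [h2] at h1
  have h3 : (fun z => lap χ z * (g z - L)) = fun z => lap χ z * g z - lap χ z * L := by
    funext z
    ring
  rw [h3, integral_sub h1 ((BTR_lap_integrable χ hχ hc).mul_const L), integral_mul_const,
    BTR_lap_int hIB1 χ hχ hc]
  linarith

theorem BTR_vol : volume.real (ball (0 : ℂ) (4 / 5)) ≤ 4 := by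
  have e1 : volume.real (ball (0 : ℂ) (4 / 5)) = Real.pi * (4 / 5) ^ 2 := by
    rw [Measure.real, Complex.volume_ball, ENNReal.toReal_mul, ENNReal.toReal_pow,
      ENNReal.toReal_ofReal (by norm_num)]
    simp [mul_comm]
  rw [e1]
  have := Real.pi_lt_four
  nlinarith

theorem BTR_abs (g : ℂ → ℝ) (L A : ℝ) (hL : 0 ≤ L) (hg : IntegrableOn g (ball 0 (4 / 5)))
    (hA : ∫ z in ball (0 : ℂ) (4 / 5), |g z| ≤ A) :
    IntegrableOn (fun z => g z - L) (ball 0 (4 / 5)) ∧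
      ∫ z in ball (0 : ℂ) (4 / 5), |g z - L| ≤ A + L * 4 := by
  have hc : IntegrableOn (fun _ : ℂ => L) (ball (0 : ℂ) (4 / 5)) :=
    integrableOn_const (by
      exact (measure_ball_lt_top (x := (0 : ℂ)) (r := 4 / 5) (μ := volume)).ne)
  have h1 : IntegrableOn (fun z => g z - L) (ball 0 (4 / 5)) := hg.sub hc
  refine ⟨h1, ?_⟩
  have h2 : ∫ z in ball (0 : ℂ) (4 / 5), |g z - L| ≤
      ∫ z in ball (0 : ℂ) (4 / 5), (|g z| + L) := by
    apply integral_mono_ae h1.abs (hg.abs.add hc)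
    filter_upwards with z
    show |g z - L| ≤ |g z| + L
    have := abs_sub (g z) L
    rw [abs_of_nonneg hL] at this
    exact this
  have h3 : ∫ z in ball (0 : ℂ) (4 / 5), (|g z| + L) =
      (∫ z in ball (0 : ℂ) (4 / 5), |g z|) + ∫ _z in ball (0 : ℂ) (4 / 5), L :=
    integral_add hg.abs hc
  have h4 : ∫ _z in ball (0 : ℂ) (4 / 5), L = volume.real (ball (0 : ℂ) (4 / 5)) * L := by
    rw [setIntegral_const, smul_eq_mul]
  have h5 : volume.real (ball (0 : ℂ) (4 / 5)) * L ≤ 4 * L :=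
    mul_le_mul_of_nonneg_right BTR_vol hL
  linarith

/-! ### null sets -/

theorem BTR_Q_ae (P Q : ℂ → ℂ) (hA : Adm P Q) (hW : ∃ z ∈ ball (0 : ℂ) 1, Wr P Q z ≠ 0) :
    ∀ᵐ z : ℂ, z ∈ ball (0 : ℂ) 1 → Q z ≠ 0 := by
  have hne : ∃ z ∈ ball (0 : ℂ) 1, Q z ≠ 0 := by
    by_contra hcon
    push Not at hcon
    obtain ⟨z, hz, hz2⟩ := hW
    apply hz2
    have h1 : Q =ᶠ[𝓝 z] fun _ => 0 := by
      filter_upwards [isOpen_ball.mem_nhds hz] with x hx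
      exact hcon x hx
    unfold Wr
    rw [h1.deriv_eq, hcon z hz, deriv_const]
    ring
  obtain ⟨z₀, hz₀, hQz₀⟩ := hne
  have hco : Q ⁻¹' {0}ᶜ ∈ codiscreteWithin (ball (0 : ℂ) 1) :=
    (hA.2.1.analyticOnNhd isOpen_ball).preimage_zero_mem_codiscreteWithin hQz₀ hz₀
      ⟨⟨0, mem_ball_self one_pos⟩, (convex_ball (0 : ℂ) 1).isPreconnected⟩
  have := ae_restrict_le_codiscreteWithin (μ := volume)
    (measurableSet_ball (x := (0 : ℂ)) (ε := 1)) hco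
  rw [← ae_restrict_iff' measurableSet_ball]
  filter_upwards [this] with z hz
  exact hz

/-! ### bands -/

theorem BTR_a1 (c K r : ℝ) (i j : ℕ) (hK : 0 < K) (hr : 0 < r) (h : c ≤ K⁻¹ ^ i * r⁻¹ ^ j) :
    c * K ^ i * r ^ j ≤ 1 := by
  calc c * K ^ i * r ^ j ≤ (K⁻¹ ^ i * r⁻¹ ^ j) * K ^ i * r ^ j := by gcongr
    _ = (K⁻¹ * K) ^ i * (r⁻¹ * r) ^ j := by rw [mul_pow, mul_pow]; ring
    _ = 1 := by rw [inv_mul_cancel₀ hK.ne', inv_mul_cancel₀ hr.ne', one_pow, one_pow, one_mul]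

theorem BTR_a2 (c K r e : ℝ) (i j : ℕ) (hK : 0 < K) (hr : 0 < r)
    (h : c * K ^ i * r ^ j ≤ e ^ i * e ^ j) : c ≤ (e / K) ^ i * (e / r) ^ j := by
  have h6 : (e / K) ^ i * (e / r) ^ j = e ^ i * e ^ j / (K ^ i * r ^ j) := by
    rw [div_pow, div_pow, div_mul_div_comm]
  rw [h6, le_div_iff₀ (by positivity), ← mul_assoc]
  exact h

theorem BTR_band_mono (P Q : ℂ × ℂ → ℂ) (S : Set ℂ) (κ κ' r : ℝ) (x0 : ℂ) (Y : ℂ × ℂ → ℂ)
    (h : Band P Q S κ r x0 Y) (hk : κ' ≤ κ) : Band P Q S κ' r x0 Y := by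
  obtain ⟨h1, h2, h3⟩ := h
  have hb : ball (0 : ℂ) κ' ⊆ ball 0 κ := ball_subset_ball hk
  exact ⟨h1.mono (prod_mono hb (subset_refl _)), h2, fun t ht v hv => h3 t (hb ht) v hv⟩

/-- `Φ = 0` where there is a band -/
theorem BTR_zero (hBCF : BCF_stmt) (hBTC : BTC_stmt) (P Q : ℂ × ℂ → ℂ) (E κ r : ℝ)
    (hND : ND P Q E) (hκ : 0 < κ) (hκ1 : κ ≤ 1) (hr : 0 < r) (hr1 : r ≤ 1) (x0 : ℂ)
    (hx0 : x0 ∈ ball (0 : ℂ) 1) (hQ : Q (x0, 0) ≠ 0)
    (hB : ∃ Y : ℂ × ℂ → ℂ, Band P Q (ball 0 1) κ r x0 Y) : BTR_s P Q (3 * κ / 4) r x0 ≤ 0 := by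
  obtain ⟨Y, hY⟩ := hB
  obtain ⟨Y', hY'⟩ := ((hBTC P Q E hND).2 x0 hx0 (ball 0 1) κ r Y (subset_refl _) hκ hκ1 hr
    hr1).1 hQ hY
  have hκ' : 0 < 3 * κ / 4 := by positivity
  obtain ⟨_, h1, _⟩ := (hBCF P Q E hND).2 x0 hx0 hQ (3 * κ / 4) r Y' hκ' hr hr1 hY'
  unfold BTR_s
  apply Real.iSup_nonpos
  rintro ⟨⟨i, j⟩, hn⟩
  apply div_nonpos_of_nonpos_of_nonneg
  · apply Real.log_nonpos (by positivity)
    exact BTR_a1 _ _ _ i j hκ' hr (h1 i j)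
  · positivity

/-- a band where `Φ ≤ L` -/
theorem BTR_band (hBCC : BCC_stmt) (hBTC : BTC_stmt) (P Q : ℂ × ℂ → ℂ) (E κ r L : ℝ)
    (hND : ND P Q E) (hκ : 0 < κ) (hκ1 : κ ≤ 1) (hr : 0 < r) (hr1 : r ≤ 1) (hL : 0 ≤ L) (x0 : ℂ)
    (hx0 : x0 ∈ ball (0 : ℂ) (1 / 2)) (hW : Wr (sl P 0) (sl Q 0) x0 ≠ 0)
    (hPQ : ‖P (x0, 0)‖ ≤ ‖Q (x0, 0)‖)
    (hbd : BddAbove (range fun n : {n : ℕ × ℕ // n ≠ 0} =>
      Real.log (‖cf P Q n.1.1 n.1.2 x0‖ * (3 * κ / 4) ^ n.1.1 * r ^ n.1.2) /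
        ((n.1.1 : ℝ) + n.1.2)))
    (hs : BTR_s P Q (3 * κ / 4) r x0 ≤ L) :
    ∃ Y : ℂ × ℂ → ℂ, Band P Q (ball 0 1 ∩ ball x0 (1 / 3)) (κ * Real.exp (-L) / 50)
      (r * Real.exp (-L) / 8) x0 Y := by
  have hx1 : x0 ∈ ball (0 : ℂ) 1 := ball_subset_ball (by norm_num) hx0
  have hQ : Q (x0, 0) ≠ 0 := by
    intro h0
    rw [h0, norm_zero] at hPQ
    have h1 : P (x0, 0) = 0 := norm_eq_zero.1 (le_antisymm hPQ (norm_nonneg _))
    rcases hND.ne (x0, 0) ⟨hx1, mem_ball_self one_pos⟩ with h2 | h2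
    · exact h2 h1
    · exact h2 h0
  have hκ' : 0 < 3 * κ / 4 := by positivity
  have hK : 1 ≤ Real.exp L := Real.one_le_exp hL
  have hK0 : 0 < Real.exp L := Real.exp_pos L
  have hcoef : ∀ i j : ℕ, (i, j) ≠ (0, 0) →
      ‖cf P Q i j x0‖ ≤ (Real.exp L / (3 * κ / 4)) ^ i * (Real.exp L / r) ^ j := by
    intro i j hij
    have h1 := (le_ciSup hbd ⟨(i, j), hij⟩).trans hs
    have hpos : (0 : ℝ) < (i : ℝ) + j := by
      have h2 : 0 < i + j := by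
        rcases Nat.eq_zero_or_pos (i + j) with h3 | h3
        · exfalso
          apply hij
          have h4 : i = 0 := by omega
          have h5 : j = 0 := by omega
          rw [h4, h5]
        · exact h3
      exact_mod_cast h2
    have h2 : Real.log (‖cf P Q i j x0‖ * (3 * κ / 4) ^ i * r ^ j) ≤ L * ((i : ℝ) + j) :=
      (div_le_iff₀ hpos).1 h1
    have h3 : ‖cf P Q i j x0‖ * (3 * κ / 4) ^ i * r ^ j ≤ Real.exp L ^ i * Real.exp L ^ j := by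
      have h4 : Real.exp L ^ i * Real.exp L ^ j = Real.exp (L * ((i : ℝ) + j)) := by
        rw [← Real.exp_nat_mul, ← Real.exp_nat_mul, ← Real.exp_add]
        congr 1
        ring
      rw [h4]
      rcases eq_or_lt_of_le (norm_nonneg (cf P Q i j x0)) with h5 | h5
      · rw [← h5, zero_mul, zero_mul]
        exact (Real.exp_pos _).le
      · exact (Real.log_le_iff_le_exp (by positivity)).1 h2
    exact BTR_a2 _ _ _ _ i j hκ' hr h3
  obtain ⟨Y, hY⟩ := hBCC P Q E hND x0 hx0 hQ hW (3 * κ / 4) r (Real.exp L) hκ' hr hr1 hK hcoef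
  have hk2 : 0 < 3 * κ / 4 / (8 * Real.exp L) := by positivity
  have hk3 : 3 * κ / 4 / (8 * Real.exp L) ≤ 1 := by
    rw [div_le_one (by positivity)]
    linarith
  have hr2 : 0 < r / (8 * Real.exp L) := by positivity
  have hr3 : r / (8 * Real.exp L) ≤ 1 := by
    rw [div_le_one (by positivity)]
    linarith
  obtain ⟨Y', hY'⟩ := ((hBTC P Q E hND).2 x0 hx1 (ball 0 1 ∩ ball x0 (1 / 3)) _ _ Y
    inter_subset_left hk2 hk3 hr2 hr3).2.1 hPQ hY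
  have he : r * Real.exp (-L) / 8 = r / (8 * Real.exp L) := by
    rw [Real.exp_neg]
    field_simp
  have he2 : κ * Real.exp (-L) / 50 ≤ 3 * κ / 4 / (8 * Real.exp L) / 4 := by
    have e1 : 3 * κ / 4 / (8 * Real.exp L) / 4 = 3 / 128 * (κ * Real.exp (-L)) := by
      rw [Real.exp_neg]
      field_simp
      norm_num
    rw [e1]
    have e2 : 0 < κ * Real.exp (-L) := mul_pos hκ (Real.exp_pos _)
    linarith
  rw [he]
  exact ⟨Y', BTR_band_mono P Q _ _ _ _ _ _ hY' he2⟩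

/-! ### one pair -/

theorem BTR_pair (hCH1 : CH1_stmt) (hIB1 : IB1_stmt) (hBSL : BSL_stmt) (hBCF : BCF_stmt)
    (hBCC : BCC_stmt) (hBTC : BTC_stmt) (χ : ℂ → ℝ) (hχ : ContDiff ℝ ∞ χ)
    (hχc : HasCompactSupport χ) (hχs : tsupport χ ⊆ ball 0 (1 / 5)) (hχ0 : ∀ z, 0 ≤ χ z)
    (hχ1 : ∀ z ∈ ball (0 : ℂ) (1 / 6), χ z = 1) (hχle : ∀ z, χ z ≤ 1) (C1 C2 : ℝ)
    (hC2 : 0 < C2)
    (hcut : ∀ (S₁ S₂ v : ℂ → ℝ) (l A B : ℝ), 0 < l → 0 < A → 0 ≤ B →
      IntegrableOn S₁ (ball 0 (4 / 5)) → IntegrableOn S₂ (ball 0 (4 / 5)) →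
      ∫ z in ball (0 : ℂ) (4 / 5), |S₁ z| ≤ A → ∫ z in ball (0 : ℂ) (4 / 5), |S₂ z| ≤ A →
      (∀ κ : ℂ → ℝ, ContDiff ℝ ∞ κ → HasCompactSupport κ → tsupport κ ⊆ ball 0 (4 / 5) →
        (∀ z, 0 ≤ κ z) → 0 ≤ (∫ z, lap κ z * S₁ z) ∧ 0 ≤ ∫ z, lap κ z * S₂ z) →
      (∀ᵐ z, z ∈ ball (0 : ℂ) (4 / 5) → 0 ≤ l * (S₁ z - S₂ z) ∧ l * (S₁ z - S₂ z) ≤ 1) →
      ContDiffOn ℝ ∞ v (ball 0 1) → (∀ z ∈ ball (0 : ℂ) 1, |v z| ≤ B) →
      |∫ z, χ z * (l * (S₁ z - S₂ z)) * lap v z| ≤ C1 * B * (1 + l * A))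
    (P Q : ℂ × ℂ → ℂ) (V : ℂ → ℝ) (E B κ r L γ : ℝ) (hND : ND P Q E)
    (hS : ∀ L' : ℝ, 0 ≤ L' → L' ≤ E →
      (∀ x ∈ ball (0 : ℂ) 1, Wr (sl P 0) (sl Q 0) x ≠ 0 →
        BddAbove (range fun n : {n : ℕ × ℕ // n ≠ 0} =>
          Real.log (‖cf P Q n.1.1 n.1.2 x‖ * (3 * κ / 4) ^ n.1.1 * r ^ n.1.2) /
            ((n.1.1 : ℝ) + n.1.2))) ∧
      Measurable (fun x => ({x : ℂ | x ∈ ball (0 : ℂ) 1 ∧ Wr (sl P 0) (sl Q 0) x ≠ 0}).indicator
        (Ph P Q (3 * κ / 4) r L') x) ∧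
      IntegrableOn (fun x => Ph P Q (3 * κ / 4) r L' x +
        4 * Real.log ‖Wr (sl P 0) (sl Q 0) x‖) (ball 0 (4 / 5)) ∧
      ∫ x in ball (0 : ℂ) (4 / 5), |Ph P Q (3 * κ / 4) r L' x +
        4 * Real.log ‖Wr (sl P 0) (sl Q 0) x‖| ≤ C2 * E ∧
      ∀ χ : ℂ → ℝ, ContDiff ℝ ∞ χ → HasCompactSupport χ → tsupport χ ⊆ ball 0 (4 / 5) →
        (∀ x, 0 ≤ χ x) →
        0 ≤ ∫ x, lap χ x * (Ph P Q (3 * κ / 4) r L' x +
          4 * Real.log ‖Wr (sl P 0) (sl Q 0) x‖))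
    (hV : ContDiffOn ℝ ∞ V (ball 0 1)) (hVl : ∀ x ∈ ball (0 : ℂ) 1, 0 ≤ lap V x) (hB : 0 ≤ B)
    (hVU : ∀ x ∈ ball (0 : ℂ) 1, |V x - Up (sl P 0) (sl Q 0) x| ≤ B) (hκ : 0 < κ) (hκ1 : κ ≤ 1)
    (hr : 0 < r) (hr1 : r ≤ 1) (hL : 1 ≤ L) (hLE : L ≤ E) (hγ : 0 ≤ γ)
    (hmass : 4 ≤ ∫ x in ball (0 : ℂ) (1 / 2), sph (sl P 0) (sl Q 0) x)
    (hbad : ∫⁻ x0 in {x0 : ℂ | x0 ∈ ball (0 : ℂ) (1 / 5) ∧
      ¬ ∃ Y : ℂ × ℂ → ℂ, Band P Q (ball 0 1) κ r x0 Y},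
        ENNReal.ofReal (sph (sl P 0) (sl Q 0) x0) ≤ ENNReal.ofReal γ) :
    ∃ Bd : Set ℂ, MeasurableSet Bd ∧
      (∀ x0 ∈ ball (0 : ℂ) (1 / 6), x0 ∉ Bd → Wr (sl P 0) (sl Q 0) x0 ≠ 0 →
        ‖P (x0, 0)‖ ≤ ‖Q (x0, 0)‖ → ∃ Y : ℂ × ℂ → ℂ,
          Band P Q (ball 0 1 ∩ ball x0 (1 / 3)) (κ * Real.exp (-L) / 50)
            (r * Real.exp (-L) / 8) x0 Y) ∧
      ∫ x in Bd ∩ ball 0 (1 / 6), lap V x ≤
        γ / 2 + C1 * B * (1 + 1 / L * ((C2 + 4) * E)) := by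
  have hL0 : 0 < L := by linarith
  have hE := hND.hE
  have hE0 : 0 < E := by linarith
  have hsub : ball (0 : ℂ) (4 / 5) ⊆ ball 0 1 := ball_subset_ball (by norm_num)
  have hsub5 : ball (0 : ℂ) (1 / 5) ⊆ ball 0 (4 / 5) := ball_subset_ball (by norm_num)
  have hsub6 : ball (0 : ℂ) (1 / 6) ⊆ ball 0 (1 / 5) := ball_subset_ball (by norm_num)
  have hχs4 : tsupport χ ⊆ ball (0 : ℂ) (4 / 5) := hχs.trans hsub5
  obtain ⟨hA, -, -⟩ := hBSL P Q E hND 0 (mem_ball_self one_pos)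
  obtain ⟨hW, hWae⟩ := IS2_ae _ _ hA hmass
  obtain ⟨hUs, hUl⟩ := hCH1.2 (ball 0 1) _ _ isOpen_ball hA.1 hA.2.1 hA.2.2
  obtain ⟨hS1, hS2, hS3, hS4, hS5⟩ := hS L hL0.le hLE
  obtain ⟨_, hT2, hT3, hT4, hT5⟩ := hS 0 le_rfl hE0.le
  -- the functions
  have hi1 : IntegrableOn (BTR_S P Q (3 * κ / 4) r 0) (ball 0 (4 / 5)) ∧
      ∫ z in ball (0 : ℂ) (4 / 5), |BTR_S P Q (3 * κ / 4) r 0 z| ≤ C2 * E + 0 * 4 :=
    BTR_abs _ 0 _ le_rfl hT3 hT4
  have hi2 : IntegrableOn (BTR_S P Q (3 * κ / 4) r L) (ball 0 (4 / 5)) ∧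
      ∫ z in ball (0 : ℂ) (4 / 5), |BTR_S P Q (3 * κ / 4) r L z| ≤ C2 * E + L * 4 :=
    BTR_abs _ L _ hL0.le hS3 hS4
  have hA4 : 0 < (C2 + 4) * E := by positivity
  have hHp := fun x => BTR_H_prop P Q (3 * κ / 4) r L x hL0
  have hvs : ContDiffOn ℝ ∞ (fun x => V x - Up (sl P 0) (sl Q 0) x) (ball 0 1) := hV.sub hUs
  have hcutH : |∫ z, χ z * BTR_H P Q (3 * κ / 4) r L z *
      lap (fun x => V x - Up (sl P 0) (sl Q 0) x) z| ≤
      C1 * B * (1 + 1 / L * ((C2 + 4) * E)) := by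
    refine hcut (BTR_S P Q (3 * κ / 4) r 0) (BTR_S P Q (3 * κ / 4) r L)
      (fun x => V x - Up (sl P 0) (sl Q 0) x) (1 / L) ((C2 + 4) * E) B (by positivity) hA4 hB
      hi1.1 hi2.1 ?_ ?_ ?_ ?_ hvs hVU
    · have := hi1.2
      linarith
    · have := hi2.2
      linarith
    · intro κ' h1 h2 h3 h4
      exact ⟨BTR_weak hIB1 κ' _ 0 h1 h2 h3 hT3 (hT5 κ' h1 h2 h3 h4),
        BTR_weak hIB1 κ' _ L h1 h2 h3 hS3 (hS5 κ' h1 h2 h3 h4)⟩
    · refine Eventually.of_forall fun z _ => ?_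
      exact ⟨(hHp z).1, (hHp z).2.1⟩
  have hHi : IntegrableOn (BTR_H P Q (3 * κ / 4) r L) (ball 0 (4 / 5)) :=
    (hi1.1.sub hi2.1).const_mul _
  have hVc : ∀ z ∈ ball (0 : ℂ) 1, ContinuousAt (lap V) z := fun z hz =>
    IS2_lap_contAt V z (hV.contDiffAt (isOpen_ball.mem_nhds hz))
  have hUc : ∀ z ∈ ball (0 : ℂ) 1, ContinuousAt (lap (Up (sl P 0) (sl Q 0))) z := fun z hz =>
    IS2_lap_contAt _ z (hUs.contDiffAt (isOpen_ball.mem_nhds hz))
  have hDc : ∀ z ∈ ball (0 : ℂ) 1,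
      ContinuousAt (lap (fun x => V x - Up (sl P 0) (sl Q 0) x)) z := fun z hz =>
    IS2_lap_contAt _ z (hvs.contDiffAt (isOpen_ball.mem_nhds hz))
  have hIV := IS2_int χ (lap V) _ hχ.continuous hχc hχs4 hVc hHi
  have hIU := IS2_int χ (lap (Up (sl P 0) (sl Q 0))) _ hχ.continuous hχc hχs4 hUc hHi
  have hID := IS2_int χ _ _ hχ.continuous hχc hχs4 hDc hHi
  have hχout : ∀ z, z ∉ ball (0 : ℂ) (1 / 5) → χ z = 0 := fun z hz =>
    image_eq_zero_of_notMem_tsupport (fun h => hz (hχs h))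
  -- the bad set
  have hBm : MeasurableSet {x : ℂ | L < ({x : ℂ | x ∈ ball (0 : ℂ) 1 ∧
      Wr (sl P 0) (sl Q 0) x ≠ 0}).indicator (Ph P Q (3 * κ / 4) r L) x} :=
    measurableSet_lt measurable_const hS2
  obtain ⟨Bd, hBd⟩ : ∃ Bd : Set ℂ, Bd = {x : ℂ | L < ({x : ℂ | x ∈ ball (0 : ℂ) 1 ∧
      Wr (sl P 0) (sl Q 0) x ≠ 0}).indicator (Ph P Q (3 * κ / 4) r L) x} := ⟨_, rfl⟩
  have hBd1 : ∀ x ∈ Bd, L ≤ BTR_s P Q (3 * κ / 4) r x := by
    intro x hx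
    rw [hBd] at hx
    have h1 : L < ({x : ℂ | x ∈ ball (0 : ℂ) 1 ∧
      Wr (sl P 0) (sl Q 0) x ≠ 0}).indicator (Ph P Q (3 * κ / 4) r L) x := hx
    by_cases h2 : x ∈ {x : ℂ | x ∈ ball (0 : ℂ) 1 ∧ Wr (sl P 0) (sl Q 0) x ≠ 0}
    · rw [indicator_of_mem h2, BTR_Ph, lt_max_iff] at h1
      rcases h1 with h1 | h1
      · exact absurd h1 (lt_irrefl _)
      · exact h1.le
    · rw [indicator_of_notMem h2] at h1
      exact absurd h1 (not_lt.2 hL0.le)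
  have hBd2 : ∀ x ∈ ball (0 : ℂ) 1, Wr (sl P 0) (sl Q 0) x ≠ 0 → x ∉ Bd →
      BTR_s P Q (3 * κ / 4) r x ≤ L := by
    intro x hx hxW hxB
    rw [hBd] at hxB
    have h1 : ¬ L < ({x : ℂ | x ∈ ball (0 : ℂ) 1 ∧
      Wr (sl P 0) (sl Q 0) x ≠ 0}).indicator (Ph P Q (3 * κ / 4) r L) x := hxB
    have h2 : x ∈ {x : ℂ | x ∈ ball (0 : ℂ) 1 ∧ Wr (sl P 0) (sl Q 0) x ≠ 0} := ⟨hx, hxW⟩
    rw [indicator_of_mem h2, BTR_Ph, not_lt] at h1
    exact (le_max_right _ _).trans h1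
  rw [← hBd] at hBm
  refine ⟨Bd, hBm, ?_, ?_⟩
  · intro x0 hx0 hxB hxW hPQ
    have hx1 : x0 ∈ ball (0 : ℂ) 1 := ball_subset_ball (by norm_num) hx0
    exact BTR_band hBCC hBTC P Q E κ r L hND hκ hκ1 hr hr1 hL0.le x0
      (ball_subset_ball (by norm_num) hx0) hxW hPQ (hS1 x0 hx1 hxW) (hBd2 x0 hx1 hxW hxB)
  -- step 1
  have step1 : ∫ x in Bd ∩ ball 0 (1 / 6), lap V x ≤
      ∫ z, χ z * BTR_H P Q (3 * κ / 4) r L z * lap V z := by
    rw [← integral_indicator (hBm.inter measurableSet_ball)]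
    apply integral_mono_of_nonneg
    · refine Eventually.of_forall fun z => ?_
      apply indicator_nonneg
      rintro w ⟨-, hw⟩
      exact hVl w (hsub (hsub5 (hsub6 hw)))
    · exact hIV
    · refine Eventually.of_forall fun z => ?_
      show indicator (Bd ∩ ball 0 (1 / 6)) (lap V) z ≤
        χ z * BTR_H P Q (3 * κ / 4) r L z * lap V z
      by_cases hz : z ∈ Bd ∩ ball 0 (1 / 6)
      · rw [indicator_of_mem hz, hχ1 z hz.2, (hHp z).2.2.1 (hBd1 z hz.1), one_mul, one_mul]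
      · rw [indicator_of_notMem hz]
        by_cases hz1 : z ∈ ball (0 : ℂ) (1 / 5)
        · exact mul_nonneg (mul_nonneg (hχ0 z) (hHp z).1) (hVl z (hsub (hsub5 hz1)))
        · rw [hχout z hz1, zero_mul, zero_mul]
  -- step 2
  have step2 : ∫ z, χ z * BTR_H P Q (3 * κ / 4) r L z * lap V z =
      (∫ z, χ z * BTR_H P Q (3 * κ / 4) r L z * lap (Up (sl P 0) (sl Q 0)) z) +
      ∫ z, χ z * BTR_H P Q (3 * κ / 4) r L z *
        lap (fun x => V x - Up (sl P 0) (sl Q 0) x) z := by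
    rw [← integral_add hIU hID]
    congr 1
    funext z
    by_cases hz : z ∈ ball (0 : ℂ) (1 / 5)
    · have hz1 := hsub (hsub5 hz)
      rw [IS2_lap_sub V (Up (sl P 0) (sl Q 0)) z (hV.contDiffAt (isOpen_ball.mem_nhds hz1))
        (hUs.contDiffAt (isOpen_ball.mem_nhds hz1))]
      ring
    · rw [hχout z hz]
      ring
  -- step 3
  have hAm : MeasurableSet (ball (0 : ℂ) (1 / 5) ∩ {x : ℂ | 0 < ({x : ℂ | x ∈ ball (0 : ℂ) 1 ∧
      Wr (sl P 0) (sl Q 0) x ≠ 0}).indicator (Ph P Q (3 * κ / 4) r 0) x}) :=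
    measurableSet_ball.inter (measurableSet_lt measurable_const hT2)
  obtain ⟨A0, hA0⟩ : ∃ A0 : Set ℂ, A0 = ball (0 : ℂ) (1 / 5) ∩ {x : ℂ | 0 <
      ({x : ℂ | x ∈ ball (0 : ℂ) 1 ∧
      Wr (sl P 0) (sl Q 0) x ≠ 0}).indicator (Ph P Q (3 * κ / 4) r 0) x} := ⟨_, rfl⟩
  rw [← hA0] at hAm
  have hA01 : ∀ x ∈ ball (0 : ℂ) (1 / 5), x ∉ A0 → Wr (sl P 0) (sl Q 0) x ≠ 0 →
      BTR_s P Q (3 * κ / 4) r x ≤ 0 := by
    intro x hx hxA hxW
    by_contra hcon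
    apply hxA
    rw [hA0]
    refine ⟨hx, ?_⟩
    show 0 < ({x : ℂ | x ∈ ball (0 : ℂ) 1 ∧
      Wr (sl P 0) (sl Q 0) x ≠ 0}).indicator (Ph P Q (3 * κ / 4) r 0) x
    have h2 : x ∈ {x : ℂ | x ∈ ball (0 : ℂ) 1 ∧ Wr (sl P 0) (sl Q 0) x ≠ 0} :=
      ⟨hsub (hsub5 hx), hxW⟩
    rw [indicator_of_mem h2, BTR_Ph, lt_max_iff]
    exact Or.inr (not_le.1 hcon)
  have hA02 : ∀ x ∈ A0, 0 < BTR_s P Q (3 * κ / 4) r x ∧ x ∈ ball (0 : ℂ) (1 / 5) := by
    intro x hx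
    rw [hA0] at hx
    refine ⟨?_, hx.1⟩
    have h1 : 0 < ({x : ℂ | x ∈ ball (0 : ℂ) 1 ∧
      Wr (sl P 0) (sl Q 0) x ≠ 0}).indicator (Ph P Q (3 * κ / 4) r 0) x := hx.2
    by_cases h2 : x ∈ {x : ℂ | x ∈ ball (0 : ℂ) 1 ∧ Wr (sl P 0) (sl Q 0) x ≠ 0}
    · rw [indicator_of_mem h2, BTR_Ph, lt_max_iff] at h1
      rcases h1 with h1 | h1
      · exact absurd h1 (lt_irrefl _)
      · exact h1
    · rw [indicator_of_notMem h2] at h1
      exact absurd h1 (lt_irrefl _)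
  have hsphi : IntegrableOn (sph (sl P 0) (sl Q 0)) A0 := by
    have h1 : IntegrableOn (sph (sl P 0) (sl Q 0)) (closedBall (0 : ℂ) (1 / 5)) := by
      apply ContinuousOn.integrableOn_compact (isCompact_closedBall _ _)
      intro z hz
      exact (IS1_sph_cont _ _ hA z
        (closedBall_subset_ball (by norm_num) hz)).continuousWithinAt
    exact h1.mono_set fun z hz => ball_subset_closedBall (hA02 z hz).2
  have hae : A0 ≤ᵐ[volume] {x0 : ℂ | x0 ∈ ball (0 : ℂ) (1 / 5) ∧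
      ¬ ∃ Y : ℂ × ℂ → ℂ, Band P Q (ball 0 1) κ r x0 Y} := by
    filter_upwards [BTR_Q_ae _ _ hA hW] with x hx hxA
    obtain ⟨h1, h2⟩ := hA02 x hxA
    refine ⟨h2, fun hY => ?_⟩
    have h3 := hsub (hsub5 h2)
    have h4 := BTR_zero hBCF hBTC P Q E κ r hND hκ hκ1 hr hr1 x h3 (hx h3) hY
    exact absurd h1 (not_lt.2 h4)
  have hsphA : ∫ x in A0, sph (sl P 0) (sl Q 0) x ≤ γ := by
    rw [← ENNReal.ofReal_le_ofReal_iff hγ]
    rw [ofReal_integral_eq_lintegral_ofReal hsphi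
      (Eventually.of_forall fun z => IS1_sph_nonneg _ _ z)]
    exact (lintegral_mono_set' hae).trans hbad
  have step3 : ∫ z, χ z * BTR_H P Q (3 * κ / 4) r L z * lap (Up (sl P 0) (sl Q 0)) z ≤
      γ / 2 := by
    have h1 : ∫ z, χ z * BTR_H P Q (3 * κ / 4) r L z * lap (Up (sl P 0) (sl Q 0)) z ≤
        ∫ z, 1 / 2 * A0.indicator (sph (sl P 0) (sl Q 0)) z := by
      apply integral_mono hIU (((integrable_indicator_iff hAm).2 hsphi).const_mul _)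
      intro z
      show χ z * BTR_H P Q (3 * κ / 4) r L z * lap (Up (sl P 0) (sl Q 0)) z ≤
        1 / 2 * A0.indicator (sph (sl P 0) (sl Q 0)) z
      by_cases hz : z ∈ ball (0 : ℂ) (1 / 5)
      · rw [hUl z (hsub (hsub5 hz))]
        have hs0 := IS1_sph_nonneg (sl P 0) (sl Q 0) z
        by_cases hzA : z ∈ A0
        · rw [indicator_of_mem hzA]
          have h2 : χ z * BTR_H P Q (3 * κ / 4) r L z ≤ 1 :=
            mul_le_one₀ (hχle z) (hHp z).1 (hHp z).2.1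
          have h3 := mul_le_mul_of_nonneg_right h2 (by linarith :
            0 ≤ sph (sl P 0) (sl Q 0) z / 2)
          linarith
        · rw [indicator_of_notMem hzA]
          by_cases hzW : Wr (sl P 0) (sl Q 0) z = 0
          · have h2 : sph (sl P 0) (sl Q 0) z = 0 := by
              unfold sph
              rw [hzW, map_zero, zero_div]
            rw [h2]
            simp
          · rw [(hHp z).2.2.2 (hA01 z hz hzA hzW)]
            simp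
      · have hzA : z ∉ A0 := fun h => hz (hA02 z h).2
        rw [indicator_of_notMem hzA, hχout z hz]
        simp
    have h2 : ∫ z, 1 / 2 * A0.indicator (sph (sl P 0) (sl Q 0)) z =
        1 / 2 * ∫ x in A0, sph (sl P 0) (sl Q 0) x := by
      rw [integral_const_mul, integral_indicator hAm]
    linarith
  have step4 := (abs_le.1 hcutH).2
  linarith

/-! ### small mass -/

theorem BTR_small (hCH1 : CH1_stmt) (hIB1 : IB1_stmt) (hBSL : BSL_stmt) (χ : ℂ → ℝ)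
    (hχ : ContDiff ℝ ∞ χ) (hχc : HasCompactSupport χ) (hχs : tsupport χ ⊆ ball 0 (1 / 5))
    (hχ0 : ∀ z, 0 ≤ χ z) (hχ1 : ∀ z ∈ ball (0 : ℂ) (1 / 6), χ z = 1) (hχle : ∀ z, χ z ≤ 1)
    (P Q : ℂ × ℂ → ℂ) (V : ℂ → ℝ) (E B : ℝ) (hND : ND P Q E)
    (hV : ContDiffOn ℝ ∞ V (ball 0 1)) (hVl : ∀ x ∈ ball (0 : ℂ) 1, 0 ≤ lap V x)
    (hVU : ∀ x ∈ ball (0 : ℂ) 1, |V x - Up (sl P 0) (sl Q 0) x| ≤ B)
    (hmass : ∫ x in ball (0 : ℂ) (1 / 2), sph (sl P 0) (sl Q 0) x ≤ 4) :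
    ∫ x in ball (0 : ℂ) (1 / 6), lap V x ≤ 2 + (∫ z, |lap χ z|) * B := by
  have hsub5 : ball (0 : ℂ) (1 / 5) ⊆ ball 0 1 := ball_subset_ball (by norm_num)
  have hsub6 : ball (0 : ℂ) (1 / 6) ⊆ ball 0 (1 / 5) := ball_subset_ball (by norm_num)
  have hχs1 : tsupport χ ⊆ ball (0 : ℂ) 1 := hχs.trans hsub5
  obtain ⟨hA, -, -⟩ := hBSL P Q E hND 0 (mem_ball_self one_pos)
  obtain ⟨hUs, hUl⟩ := hCH1.2 (ball 0 1) _ _ isOpen_ball hA.1 hA.2.1 hA.2.2
  have hvs : ContDiffOn ℝ ∞ (fun x => V x - Up (sl P 0) (sl Q 0) x) (ball 0 1) := hV.sub hUs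
  have hVc : ContinuousOn (lap V) (ball 0 1) := IS3_lapc V _ isOpen_ball hV
  have hUc : ContinuousOn (lap (Up (sl P 0) (sl Q 0))) (ball 0 1) := IS3_lapc _ _ isOpen_ball hUs
  have hvc : ContinuousOn (lap (fun x => V x - Up (sl P 0) (sl Q 0) x)) (ball 0 1) :=
    IS3_lapc _ _ isOpen_ball hvs
  have hint : ∀ g : ℂ → ℝ, ContinuousOn g (ball 0 1) → Integrable (fun z => χ z * g z) :=
    fun g hg => IS3_integrable (ball 0 1) χ g hχ.continuous.continuousOn hχc hχs1 hg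
  have hχout : ∀ z, z ∉ ball (0 : ℂ) (1 / 5) → χ z = 0 := fun z hz =>
    image_eq_zero_of_notMem_tsupport (fun h => hz (hχs h))
  have step1 : ∫ x in ball (0 : ℂ) (1 / 6), lap V x ≤ ∫ z, χ z * lap V z := by
    rw [← integral_indicator measurableSet_ball]
    apply integral_mono_of_nonneg
    · refine Eventually.of_forall fun z => ?_
      apply indicator_nonneg
      intro w hw
      exact hVl w (hsub5 (hsub6 hw))
    · exact hint _ hVc
    · refine Eventually.of_forall fun z => ?_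
      show indicator (ball 0 (1 / 6)) (lap V) z ≤ χ z * lap V z
      by_cases hz : z ∈ ball (0 : ℂ) (1 / 6)
      · rw [indicator_of_mem hz, hχ1 z hz, one_mul]
      · rw [indicator_of_notMem hz]
        by_cases hz1 : z ∈ ball (0 : ℂ) (1 / 5)
        · exact mul_nonneg (hχ0 z) (hVl z (hsub5 hz1))
        · rw [hχout z hz1, zero_mul]
  have step2 : ∫ z, χ z * lap V z = (∫ z, χ z * lap (Up (sl P 0) (sl Q 0)) z) +
      ∫ z, χ z * lap (fun x => V x - Up (sl P 0) (sl Q 0) x) z := by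
    rw [← integral_add (hint _ hUc) (hint _ hvc)]
    congr 1
    funext z
    by_cases hz : z ∈ ball (0 : ℂ) (1 / 5)
    · have hz1 := hsub5 hz
      rw [IS2_lap_sub V (Up (sl P 0) (sl Q 0)) z (hV.contDiffAt (isOpen_ball.mem_nhds hz1))
        (hUs.contDiffAt (isOpen_ball.mem_nhds hz1))]
      ring
    · rw [hχout z hz]
      ring
  have step3 : ∫ z, χ z * lap (Up (sl P 0) (sl Q 0)) z ≤ 2 := by
    have hsphi : IntegrableOn (sph (sl P 0) (sl Q 0)) (ball (0 : ℂ) (1 / 2)) := by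
      have h1 : IntegrableOn (sph (sl P 0) (sl Q 0)) (closedBall (0 : ℂ) (1 / 2)) := by
        apply ContinuousOn.integrableOn_compact (isCompact_closedBall _ _)
        intro z hz
        exact (IS1_sph_cont _ _ hA z
          (closedBall_subset_ball (by norm_num) hz)).continuousWithinAt
      exact h1.mono_set ball_subset_closedBall
    have h1 : ∫ z, χ z * lap (Up (sl P 0) (sl Q 0)) z ≤
        ∫ z, 1 / 2 * (ball (0 : ℂ) (1 / 2)).indicator (sph (sl P 0) (sl Q 0)) z := by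
      apply integral_mono (hint _ hUc)
        (((integrable_indicator_iff measurableSet_ball).2 hsphi).const_mul _)
      intro z
      show χ z * lap (Up (sl P 0) (sl Q 0)) z ≤
        1 / 2 * (ball (0 : ℂ) (1 / 2)).indicator (sph (sl P 0) (sl Q 0)) z
      have hs0 := IS1_sph_nonneg (sl P 0) (sl Q 0) z
      by_cases hz : z ∈ ball (0 : ℂ) (1 / 5)
      · have hz2 : z ∈ ball (0 : ℂ) (1 / 2) := ball_subset_ball (by norm_num) hz
        rw [hUl z (hsub5 hz), indicator_of_mem hz2]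
        have h3 := mul_le_mul_of_nonneg_right (hχle z) (by linarith :
          0 ≤ sph (sl P 0) (sl Q 0) z / 2)
        linarith
      · rw [hχout z hz, zero_mul]
        apply mul_nonneg (by norm_num)
        exact indicator_nonneg (fun w _ => IS1_sph_nonneg _ _ w) z
    have h2 : ∫ z, 1 / 2 * (ball (0 : ℂ) (1 / 2)).indicator (sph (sl P 0) (sl Q 0)) z =
        1 / 2 * ∫ x in ball (0 : ℂ) (1 / 2), sph (sl P 0) (sl Q 0) x := by
      rw [integral_const_mul, integral_indicator measurableSet_ball]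
    linarith
  have step4 : ∫ z, χ z * lap (fun x => V x - Up (sl P 0) (sl Q 0) x) z ≤
      (∫ z, |lap χ z|) * B := by
    rw [hIB1 (ball 0 1) χ _ isOpen_ball hχ hχc hχs1 hvs, ← integral_mul_const]
    have h1 : (∫ z, lap χ z * (V z - Up (sl P 0) (sl Q 0) z)) ≤
        ∫ z, |lap χ z * (V z - Up (sl P 0) (sl Q 0) z)| :=
      (le_abs_self _).trans (abs_integral_le_integral_abs)
    refine h1.trans ?_
    apply integral_mono_of_nonneg (Eventually.of_forall fun z => abs_nonneg _)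
      ((BTR_lap_integrable χ hχ hχc).abs.mul_const _)
    refine Eventually.of_forall fun z => ?_
    show |lap χ z * (V z - Up (sl P 0) (sl Q 0) z)| ≤ |lap χ z| * B
    rw [abs_mul]
    by_cases hz1 : z ∈ ball (0 : ℂ) 1
    · exact mul_le_mul_of_nonneg_left (hVU z hz1) (abs_nonneg _)
    · rw [IS1_lap_zero χ z (fun h => hz1 (hχs1 h))]
      simp
  linarith

/-! ### symmetry -/

theorem BTR_Wr_sym (P Q : ℂ → ℂ) (z : ℂ) : Wr Q P z = - Wr P Q z := by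
  unfold Wr
  ring

theorem BTR_sph_sym (P Q : ℂ → ℂ) : sph Q P = sph P Q := by
  funext z
  unfold sph
  rw [BTR_Wr_sym, Complex.normSq_neg, add_comm (Complex.normSq (Q z))]

theorem BTR_Up_sym (P Q : ℂ → ℂ) : Up Q P = Up P Q := by
  funext z
  unfold Up
  rw [add_comm (Complex.normSq (Q z))]

/-! ### arithmetic -/

theorem BTR_arith1 (C1 C2 B E L : ℝ) (hC1 : 0 < C1) (hC2 : 0 < C2) (hB : 0 ≤ B)
    (hL : 0 < L) (hLE : L ≤ E) :
    C1 * B * (1 + 1 / L * ((C2 + 4) * E)) ≤ C1 * (C2 + 5) * ((1 + B) * E / L) := by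
  have he : 1 ≤ E / L := by
    rw [le_div_iff₀ hL]
    linarith
  have h1 : 1 / L * ((C2 + 4) * E) = (C2 + 4) * (E / L) := by ring
  have h2 : (1 + B) * E / L = (1 + B) * (E / L) := by ring
  rw [h1, h2]
  have h3 : 1 + (C2 + 4) * (E / L) ≤ (C2 + 5) * (E / L) := by linarith
  have h4 : 0 ≤ (C2 + 5) * (E / L) := by positivity
  calc C1 * B * (1 + (C2 + 4) * (E / L)) ≤ C1 * B * ((C2 + 5) * (E / L)) :=
        mul_le_mul_of_nonneg_left h3 (by positivity)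
    _ ≤ C1 * (1 + B) * ((C2 + 5) * (E / L)) := by
        apply mul_le_mul_of_nonneg_right _ h4
        exact mul_le_mul_of_nonneg_left (by linarith) hC1.le
    _ = C1 * (C2 + 5) * ((1 + B) * (E / L)) := by ring

theorem BTR_arith2 (C1 C2 I0 B E L γ X : ℝ) (hC1 : 0 < C1) (hC2 : 0 < C2) (hI : 0 ≤ I0)
    (hB : 0 ≤ B) (hL : 0 < L) (hLE : L ≤ E) (hγ : 0 ≤ γ)
    (hX : X ≤ γ + 2 * (C1 * B * (1 + 1 / L * ((C2 + 4) * E)))) :
    X ≤ (1 + 2 * (C1 * (C2 + 5)) + (2 + I0)) * (γ + (1 + B) * E / L) := by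
  have h1 := BTR_arith1 C1 C2 B E L hC1 hC2 hB hL hLE
  have hE : 0 < E := by linarith
  have h2 : 0 ≤ (1 + B) * E / L := by positivity
  have h3 : 0 ≤ C1 * (C2 + 5) * γ := by positivity
  have h4 : 0 ≤ (2 + I0) * (γ + (1 + B) * E / L) := by positivity
  nlinarith

theorem BTR_arith3 (C1 C2 I0 B E L γ X : ℝ) (hC1 : 0 < C1) (hC2 : 0 < C2) (hI : 0 ≤ I0)
    (hB : 0 ≤ B) (hL : 0 < L) (hLE : L ≤ E) (hγ : 0 ≤ γ) (hX : X ≤ 2 + I0 * B) :
    X ≤ (1 + 2 * (C1 * (C2 + 5)) + (2 + I0)) * (γ + (1 + B) * E / L) := by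
  have he : 1 ≤ E / L := by
    rw [le_div_iff₀ hL]
    linarith
  have h2 : (1 + B) * E / L = (1 + B) * (E / L) := by ring
  have h3 : 1 + B ≤ (1 + B) * E / L := by
    rw [h2]
    have : (1 + B) * 1 ≤ (1 + B) * (E / L) := mul_le_mul_of_nonneg_left he (by linarith)
    linarith
  have h4 : (2 + I0) * (1 + B) ≤ (2 + I0) * (γ + (1 + B) * E / L) :=
    mul_le_mul_of_nonneg_left (by linarith) (by linarith)
  have h5 : 0 ≤ (1 + 2 * (C1 * (C2 + 5))) * (γ + (1 + B) * E / L) := by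
    apply mul_nonneg (by positivity)
    linarith
  nlinarith

/-! ### the theorem -/

/-- BTR -/
theorem BTR (hCH1 : CH1_stmt) (hIB1 : IB1_stmt) (hCUT : CUT_stmt) (hBSL : BSL_stmt)
    (hBCF : BCF_stmt) (hBCC : BCC_stmt) (hBTC : BTC_stmt) (hBSB : BSB_stmt) : BTR_stmt := by
  let f : ContDiffBump (0 : ℂ) := ⟨1 / 6, 19 / 100, by norm_num, by norm_num⟩
  have hχ : ContDiff ℝ ∞ (f : ℂ → ℝ) := f.contDiff
  have hχc : HasCompactSupport (f : ℂ → ℝ) := f.hasCompactSupport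
  have hχs : tsupport (f : ℂ → ℝ) ⊆ ball 0 (1 / 5) := by
    rw [f.tsupport_eq]
    exact closedBall_subset_ball (by norm_num [f])
  have hχ0 : ∀ z, 0 ≤ f z := fun z => f.nonneg
  have hχle : ∀ z, f z ≤ 1 := fun z => f.le_one
  have hχ1 : ∀ z ∈ ball (0 : ℂ) (1 / 6), f z = 1 := fun z hz =>
    f.one_of_mem_closedBall (ball_subset_closedBall hz)
  generalize (f : ℂ → ℝ) = χ at hχ hχc hχs hχ0 hχle hχ1
  clear f
  obtain ⟨C1, hC1, hcut⟩ := hCUT χ hχ hχc (hχs.trans (ball_subset_ball (by norm_num))) hχ0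
  obtain ⟨C2, hC2, hS⟩ := hBSB
  have hI0 : 0 ≤ ∫ z, |lap χ z| := integral_nonneg fun z => abs_nonneg _
  refine ⟨1 + 2 * (C1 * (C2 + 5)) + (2 + ∫ z, |lap χ z|), by positivity, ?_⟩
  intro P Q V E B κ r L γ hND hV hVl hB hVU hκ hκ1 hr hr1 hL hLE hγ hbad
  have hL0 : 0 < L := by linarith
  have hκ3 : 0 < 3 * κ / 4 := by positivity
  have hκ4 : 3 * κ / 4 ≤ 1 := by linarith
  by_cases hmass : 4 ≤ ∫ x in ball (0 : ℂ) (1 / 2), sph (sl P 0) (sl Q 0) x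
  · have hND' : ND Q P E := (hBTC P Q E hND).1
    have hmass' : 4 ≤ ∫ x in ball (0 : ℂ) (1 / 2), sph (sl Q 0) (sl P 0) x := by
      rw [BTR_sph_sym]
      exact hmass
    have hVU' : ∀ x ∈ ball (0 : ℂ) 1, |V x - Up (sl Q 0) (sl P 0) x| ≤ B := by
      rw [BTR_Up_sym]
      exact hVU
    have hbad' : ∫⁻ x0 in {x0 : ℂ | x0 ∈ ball (0 : ℂ) (1 / 5) ∧
        ¬ ∃ Y : ℂ × ℂ → ℂ, Band Q P (ball 0 1) κ r x0 Y},
          ENNReal.ofReal (sph (sl Q 0) (sl P 0) x0) ≤ ENNReal.ofReal γ := by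
      rw [BTR_sph_sym]
      refine (lintegral_mono_set ?_).trans hbad
      rintro x ⟨hx, hx2⟩
      refine ⟨hx, ?_⟩
      rintro ⟨Y, hY⟩
      exact hx2 ⟨_, ((hBTC P Q E hND).2 x (ball_subset_ball (by norm_num) hx) (ball 0 1) κ r Y
        (subset_refl _) hκ hκ1 hr hr1).2.2 hY⟩
    obtain ⟨Bd1, hm1, hb1, he1⟩ := BTR_pair hCH1 hIB1 hBSL hBCF hBCC hBTC χ hχ hχc hχs hχ0 hχ1
      hχle C1 C2 hC2 hcut P Q V E B κ r L γ hND
      (fun L' h1 h2 => hS P Q E (3 * κ / 4) r L' hND hκ3 hκ4 hr hr1 h1 h2 hmass)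
      hV hVl hB hVU hκ hκ1 hr hr1 hL hLE hγ hmass hbad
    obtain ⟨Bd2, hm2, hb2, he2⟩ := BTR_pair hCH1 hIB1 hBSL hBCF hBCC hBTC χ hχ hχc hχs hχ0 hχ1
      hχle C1 C2 hC2 hcut Q P V E B κ r L γ hND'
      (fun L' h1 h2 => hS Q P E (3 * κ / 4) r L' hND' hκ3 hκ4 hr hr1 h1 h2 hmass')
      hV hVl hB hVU' hκ hκ1 hr hr1 hL hLE hγ hmass' hbad'
    obtain ⟨hA, -, -⟩ := hBSL P Q E hND 0 (mem_ball_self one_pos)
    obtain ⟨_, hWae⟩ := IS2_ae _ _ hA hmass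
    have hWae' : ∀ᵐ z : ℂ, z ∈ ball (0 : ℂ) 1 → Wr (sl P 0) (sl Q 0) z ≠ 0 :=
      (ae_restrict_iff' measurableSet_ball).1 hWae
    have hWc : ContinuousOn (Wr (sl P 0) (sl Q 0)) (ball 0 1) :=
      (IS1_W_an _ _ hA).continuousOn
    have hNm : MeasurableSet (ball (0 : ℂ) 1 \
        (ball (0 : ℂ) 1 ∩ Wr (sl P 0) (sl Q 0) ⁻¹' {0}ᶜ)) :=
      measurableSet_ball.diff
        (hWc.isOpen_inter_preimage isOpen_ball isOpen_compl_singleton).measurableSet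
    refine ⟨Bd1 ∪ Bd2 ∪ (ball (0 : ℂ) 1 \ (ball (0 : ℂ) 1 ∩ Wr (sl P 0) (sl Q 0) ⁻¹' {0}ᶜ)),
      (hm1.union hm2).union hNm, ?_, ?_⟩
    · intro x0 hx0 hxB
      have hx1 : x0 ∈ ball (0 : ℂ) 1 := ball_subset_ball (by norm_num) hx0
      have hn1 : x0 ∉ Bd1 := fun h => hxB (Or.inl (Or.inl h))
      have hn2 : x0 ∉ Bd2 := fun h => hxB (Or.inl (Or.inr h))
      have hW : Wr (sl P 0) (sl Q 0) x0 ≠ 0 := by
        intro h
        exact hxB (Or.inr ⟨hx1, fun h2 => h2.2 h⟩)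
      rcases le_total ‖P (x0, 0)‖ ‖Q (x0, 0)‖ with h1 | h1
      · exact hb1 x0 hx0 hn1 hW h1
      · have hW' : Wr (sl Q 0) (sl P 0) x0 ≠ 0 := by
          rw [BTR_Wr_sym]
          exact neg_ne_zero.2 hW
        obtain ⟨Y, hY⟩ := hb2 x0 hx0 hn2 hW' h1
        have hexp : 0 < Real.exp (-L) := Real.exp_pos _
        have hexp1 : Real.exp (-L) ≤ 1 := Real.exp_le_one_iff.2 (by linarith)
        have e1 : κ * Real.exp (-L) / 50 ≤ 1 := by
          have : κ * Real.exp (-L) ≤ 1 := mul_le_one₀ hκ1 hexp.le hexp1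
          linarith
        have e2 : r * Real.exp (-L) / 8 ≤ 1 := by
          have : r * Real.exp (-L) ≤ 1 := mul_le_one₀ hr1 hexp.le hexp1
          linarith
        exact ⟨_, ((hBTC Q P E hND').2 x0 hx1 _ _ _ Y inter_subset_left (by positivity) e1
          (by positivity) e2).2.2 hY⟩
    · have hVc : ContinuousOn (lap V) (ball 0 1) := IS3_lapc V _ isOpen_ball hV
      have hVi : IntegrableOn (lap V) (ball (0 : ℂ) (1 / 6)) := by
        have h1 : IntegrableOn (lap V) (closedBall (0 : ℂ) (1 / 6)) :=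
          (hVc.mono (closedBall_subset_ball (by norm_num))).integrableOn_compact
            (isCompact_closedBall _ _)
        exact h1.mono_set ball_subset_closedBall
      have hi1 : IntegrableOn (lap V) (Bd1 ∩ ball 0 (1 / 6)) := hVi.mono_set inter_subset_right
      have hi2 : IntegrableOn (lap V) (Bd2 ∩ ball 0 (1 / 6)) := hVi.mono_set inter_subset_right
      have hmm1 : MeasurableSet (Bd1 ∩ ball (0 : ℂ) (1 / 6)) := hm1.inter measurableSet_ball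
      have hmm2 : MeasurableSet (Bd2 ∩ ball (0 : ℂ) (1 / 6)) := hm2.inter measurableSet_ball
      have hsum : ∫ x in (Bd1 ∪ Bd2 ∪ (ball (0 : ℂ) 1 \
          (ball (0 : ℂ) 1 ∩ Wr (sl P 0) (sl Q 0) ⁻¹' {0}ᶜ))) ∩ ball 0 (1 / 6), lap V x ≤
          (∫ x in Bd1 ∩ ball 0 (1 / 6), lap V x) + ∫ x in Bd2 ∩ ball 0 (1 / 6), lap V x := by
        rw [← integral_indicator (((hm1.union hm2).union hNm).inter measurableSet_ball),
          ← integral_indicator hmm1, ← integral_indicator hmm2,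
          ← integral_add ((integrable_indicator_iff hmm1).2 hi1)
            ((integrable_indicator_iff hmm2).2 hi2)]
        apply integral_mono_of_nonneg
        · refine Eventually.of_forall fun z => ?_
          apply indicator_nonneg
          rintro w ⟨-, hw⟩
          exact hVl w (ball_subset_ball (by norm_num) hw)
        · exact ((integrable_indicator_iff hmm1).2 hi1).add
            ((integrable_indicator_iff hmm2).2 hi2)
        · filter_upwards [hWae'] with z hz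
          show indicator ((Bd1 ∪ Bd2 ∪ (ball (0 : ℂ) 1 \
            (ball (0 : ℂ) 1 ∩ Wr (sl P 0) (sl Q 0) ⁻¹' {0}ᶜ))) ∩ ball 0 (1 / 6)) (lap V) z ≤
            indicator (Bd1 ∩ ball 0 (1 / 6)) (lap V) z + indicator (Bd2 ∩ ball 0 (1 / 6)) (lap V) z
          by_cases hz6 : z ∈ ball (0 : ℂ) (1 / 6)
          · have hz1 : z ∈ ball (0 : ℂ) 1 := ball_subset_ball (by norm_num) hz6
            have hv := hVl z hz1
            have hn1 : 0 ≤ indicator (Bd1 ∩ ball 0 (1 / 6)) (lap V) z := by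
              apply indicator_apply_nonneg
              intro _
              exact hv
            have hn2 : 0 ≤ indicator (Bd2 ∩ ball 0 (1 / 6)) (lap V) z := by
              apply indicator_apply_nonneg
              intro _
              exact hv
            by_cases h1 : z ∈ Bd1
            · rw [indicator_of_mem (show z ∈ (Bd1 ∪ Bd2 ∪ (ball (0 : ℂ) 1 \
                (ball (0 : ℂ) 1 ∩ Wr (sl P 0) (sl Q 0) ⁻¹' {0}ᶜ))) ∩ ball 0 (1 / 6) from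
                ⟨Or.inl (Or.inl h1), hz6⟩),
                indicator_of_mem (show z ∈ Bd1 ∩ ball 0 (1 / 6) from ⟨h1, hz6⟩)]
              linarith
            · by_cases h2 : z ∈ Bd2
              · rw [indicator_of_mem (show z ∈ (Bd1 ∪ Bd2 ∪ (ball (0 : ℂ) 1 \
                  (ball (0 : ℂ) 1 ∩ Wr (sl P 0) (sl Q 0) ⁻¹' {0}ᶜ))) ∩ ball 0 (1 / 6) from
                  ⟨Or.inl (Or.inr h2), hz6⟩),
                  indicator_of_mem (show z ∈ Bd2 ∩ ball 0 (1 / 6) from ⟨h2, hz6⟩)]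
                linarith
              · have h3 : z ∉ (Bd1 ∪ Bd2 ∪ (ball (0 : ℂ) 1 \
                    (ball (0 : ℂ) 1 ∩ Wr (sl P 0) (sl Q 0) ⁻¹' {0}ᶜ))) ∩ ball 0 (1 / 6) := by
                  rintro ⟨(h4 | h4) | h4, -⟩
                  · exact h1 h4
                  · exact h2 h4
                  · exact h4.2 ⟨hz1, hz hz1⟩
                rw [indicator_of_notMem h3]
                linarith
          · rw [indicator_of_notMem (fun h => hz6 h.2), indicator_of_notMem (fun h => hz6 h.2),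
              indicator_of_notMem (fun h => hz6 h.2)]
            simp
      apply BTR_arith2 C1 C2 _ B E L γ _ hC1 hC2 hI0 hB hL0 hLE hγ
      linarith
  · refine ⟨univ, MeasurableSet.univ, fun x0 _ h => absurd (mem_univ _) h, ?_⟩
    rw [univ_inter]
    apply BTR_arith3 C1 C2 _ B E L γ _ hC1 hC2 hI0 hB hL0 hLE hγ
    exact BTR_small hCH1 hIB1 hBSL χ hχ hχc hχs hχ0 hχ1 hχle P Q V E B hND hV hVl hVU
      (not_le.1 hmass).le

end Pool.Agent.P2B
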