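import Pool.Agent.helper56.P2.SpecU

/-! # Project P2, block U, module UFLD: the limit at a simple fold -/

set_option autoImplicit false

namespace Pool.Agent.P2U

open MeasureTheory Set Filter Topology Metric Complex
open scoped ENNReal ContDiff

noncomputable section

theorem UFLD_slice (w1 x : ℂ) : AnalyticAt ℂ (fun x : ℂ => ((x, w1) : ℂ × ℂ)) x :=
  analyticAt_id.prod analyticAt_const

theorem UFLD_comp {F : ℂ × ℂ → ℂ} {x w1 : ℂ} (h : AnalyticAt ℂ F (x, w1)) :
    AnalyticAt ℂ (fun x : ℂ => F (x, w1)) x :=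
  AnalyticAt.fun_comp h (UFLD_slice w1 x)

theorem UFLD_deriv {F : ℂ × ℂ → ℂ} {x w1 : ℂ} (h : AnalyticAt ℂ F (x, w1)) :
    HasDerivAt (fun x : ℂ => F (x, w1)) (fderiv ℂ F (x, w1) (1, 0)) x := by
  have h1 : HasDerivAt (fun x : ℂ => ((x, w1) : ℂ × ℂ)) (1, 0) x :=
    (hasDerivAt_id x).prodMk (hasDerivAt_const x w1)
  exact h.differentiableAt.hasFDerivAt.comp_hasDerivAt x h1

theorem UFLD_dx {F : ℂ × ℂ → ℂ} {q : ℂ × ℂ} (h : AnalyticAt ℂ F q) :
    AnalyticAt ℂ (dx F) q := by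
  have h1 : AnalyticAt ℂ (fderiv ℂ F) q := h.fderiv
  have h2 : AnalyticAt ℂ (⇑(ContinuousLinearMap.apply ℂ ℂ ((1, 0) : ℂ × ℂ))) (fderiv ℂ F q) :=
    ContinuousLinearMap.analyticAt _ _
  exact AnalyticAt.fun_comp (g := ⇑(ContinuousLinearMap.apply ℂ ℂ ((1, 0) : ℂ × ℂ))) h2 h1

theorem UFLD_cx {P Q : ℂ × ℂ → ℂ} {q : ℂ × ℂ} (hP : AnalyticAt ℂ P q) (hQ : AnalyticAt ℂ Q q) :
    AnalyticAt ℂ (cx P Q) q :=
  (hQ.mul (UFLD_dx hP)).sub (hP.mul (UFLD_dx hQ))

theorem UFLD_nn {P Q : ℂ × ℂ → ℂ} {q : ℂ × ℂ} (h : cx P Q q = 0)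
    (h' : fderiv ℂ (cx P Q) q (1, 0) = 0) : nn P Q q = 0 := by
  unfold nn
  have h1 : ef P Q q = cv P Q q • ((1, 0) : ℂ × ℂ) := by
    unfold ef
    rw [h]
    simp
  rw [h, zero_mul, h1, map_smul, h', smul_zero, mul_zero, sub_zero]

theorem UFLD : UFLD_stmt := by
  intro P Q r hol x0 R X w1 x1 hR hRr hBr hw1 hLim hx1 hcx hnn
  obtain ⟨w, hwR, hww, hwX⟩ := hLim
  have hq1 : ((x1, w1) : ℂ × ℂ) ∈ TB 2 r := ⟨by simpa using by linarith, by
    simpa [hw1] using hRr⟩
  have h0 : (0 : ℂ) ∈ ball (0 : ℂ) R := mem_ball_self hR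
  have hx0 : ‖x0‖ < 1 := by
    rw [← hBr.ini]
    exact hBr.lt 0 h0
  have hq0 : ((x0, 0) : ℂ × ℂ) ∈ TB 2 r := ⟨by simpa using by linarith, by
    simpa using by linarith⟩
  have hPc := (hol.hP _ hq1).continuousAt
  have hQc := (hol.hQ _ hq1).continuousAt
  -- the value at the limit point
  have hpair : Tendsto (fun k => ((X (w k), w k) : ℂ × ℂ)) atTop (𝓝 (x1, w1)) :=
    hwX.prodMk_nhds hww
  have hlim : P (x1, w1) * Q (x0, 0) = Q (x1, w1) * P (x0, 0) := by
    have h1 : Tendsto (fun k => P (X (w k), w k) * Q (x0, 0)) atTop (𝓝 (P (x1, w1) * Q (x0, 0))) :=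
      (hPc.tendsto.comp hpair).mul_const _
    have h2 : Tendsto (fun k => Q (X (w k), w k) * P (x0, 0)) atTop (𝓝 (Q (x1, w1) * P (x0, 0))) :=
      (hQc.tendsto.comp hpair).mul_const _
    have h3 : (fun k => P (X (w k), w k) * Q (x0, 0)) = fun k => Q (X (w k), w k) * P (x0, 0) := by
      funext k
      exact hBr.eq (w k) (mem_ball_zero_iff.2 (hwR k))
    rw [h3] at h1
    exact tendsto_nhds_unique h1 h2
  set P1 := P (x1, w1) with hP1
  set Q1 := Q (x1, w1) with hQ1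
  have hG : ∀ z ∈ ball (0 : ℂ) R, P (X z, z) * Q1 - Q (X z, z) * P1 = 0 := by
    intro z hz
    have h1 := hBr.eq z hz
    rcases hol.ne _ hq0 with hp | hq
    · have : (P (X z, z) * Q1 - Q (X z, z) * P1) * P (x0, 0) = 0 := by
        linear_combination (-P (X z, z)) * hlim + P1 * h1
      exact (mul_eq_zero.1 this).resolve_right hp
    · have : (P (X z, z) * Q1 - Q (X z, z) * P1) * Q (x0, 0) = 0 := by
        linear_combination Q1 * h1 - Q (X z, z) * hlim
      exact (mul_eq_zero.1 this).resolve_right hq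
  -- the point `x1` is an isolated zero
  set f : ℂ → ℂ := fun x => P (x, w1) * Q1 - Q (x, w1) * P1 with hf
  have hfa : AnalyticAt ℂ f x1 :=
    ((UFLD_comp (hol.hP _ hq1)).mul analyticAt_const).sub
      ((UFLD_comp (hol.hQ _ hq1)).mul analyticAt_const)
  have hiso : ∀ᶠ x in 𝓝[≠] x1, f x ≠ 0 := by
    rcases hfa.eventually_eq_zero_or_eventually_ne_zero with hz | hz
    · exfalso
      apply hnn
      apply UFLD_nn hcx
      have hTB : ∀ᶠ x in 𝓝 x1, ((x, w1) : ℂ × ℂ) ∈ TB 2 r := by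
        have : ∀ᶠ x in 𝓝 x1, ‖x‖ < 2 := by
          apply continuous_norm.continuousAt.eventually_lt continuousAt_const
          linarith
        filter_upwards [this] with x hx
        exact ⟨hx, by simpa [hw1] using hRr⟩
      have hcz : (fun x : ℂ => cx P Q (x, w1)) =ᶠ[𝓝 x1] fun _ => 0 := by
        filter_upwards [hz.eventually_nhds, hTB] with x hx hxT
        have ha := hol.hP (x, w1) hxT
        have hb := hol.hQ (x, w1) hxT
        have hda := UFLD_deriv ha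
        have hdb := UFLD_deriv hb
        have hfx : f x = 0 := hx.self_of_nhds
        have hdf : HasDerivAt f (fderiv ℂ P (x, w1) (1, 0) * Q1 - fderiv ℂ Q (x, w1) (1, 0) * P1) x :=
          (hda.mul_const Q1).sub (hdb.mul_const P1)
        have hdf0 : fderiv ℂ P (x, w1) (1, 0) * Q1 - fderiv ℂ Q (x, w1) (1, 0) * P1 = 0 := by
          have h2 : HasDerivAt f 0 x := by
            have h3 : f =ᶠ[𝓝 x] fun _ => (0 : ℂ) := hx
            exact (hasDerivAt_const x (0 : ℂ)).congr_of_eventuallyEq h3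
          exact hdf.unique h2
        have hfx' : P (x, w1) * Q1 - Q (x, w1) * P1 = 0 := hfx
        unfold cx dx
        rcases hol.ne _ hq1 with hp | hq
        · have : (Q (x, w1) * fderiv ℂ P (x, w1) (1, 0) - P (x, w1) * fderiv ℂ Q (x, w1) (1, 0)) * P1
              = 0 := by
            linear_combination (-fderiv ℂ P (x, w1) (1, 0)) * hfx' + P (x, w1) * hdf0
          exact (mul_eq_zero.1 this).resolve_right hp
        · have : (Q (x, w1) * fderiv ℂ P (x, w1) (1, 0) - P (x, w1) * fderiv ℂ Q (x, w1) (1, 0)) * Q1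
              = 0 := by
            linear_combination Q (x, w1) * hdf0 - fderiv ℂ Q (x, w1) (1, 0) * hfx'
          exact (mul_eq_zero.1 this).resolve_right hq
      have hd := UFLD_deriv (UFLD_cx (hol.hP _ hq1) (hol.hQ _ hq1))
      have h4 : HasDerivAt (fun x : ℂ => cx P Q (x, w1)) 0 x1 :=
        (hasDerivAt_const x1 (0 : ℂ)).congr_of_eventuallyEq hcz
      exact hd.unique h4
    · exact hz
  rw [Metric.tendsto_nhdsWithin_nhds]
  intro ε0 hε0
  rw [eventually_nhdsWithin_iff, Metric.eventually_nhds_iff] at hiso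
  obtain ⟨ε1, hε1, hne⟩ := hiso
  obtain ⟨ε, hε, hεε0, hεε1, hε2⟩ : ∃ ε : ℝ, 0 < ε ∧ ε < ε0 ∧ ε < ε1 ∧ ε < 1 := by
    refine ⟨min (min ε0 ε1) 1 / 2, by positivity, ?_, ?_, ?_⟩
    · have : min (min ε0 ε1) 1 ≤ ε0 := (min_le_left _ _).trans (min_le_left _ _)
      linarith
    · have : min (min ε0 ε1) 1 ≤ ε1 := (min_le_left _ _).trans (min_le_right _ _)
      linarith
    · have : min (min ε0 ε1) 1 ≤ 1 := min_le_right _ _
      linarith
  have hcomp : IsCompact (sphere x1 ε) := isCompact_sphere _ _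
  have htube : ∀ᶠ z in 𝓝 w1, ∀ x ∈ sphere x1 ε, P (x, z) * Q1 - Q (x, z) * P1 ≠ 0 := by
    apply hcomp.eventually_forall_of_forall_eventually
    intro x hx
    rw [mem_sphere] at hx
    have hxT : ((x, w1) : ℂ × ℂ) ∈ TB 2 r := by
      refine ⟨?_, by simpa [hw1] using hRr⟩
      have h5 : ‖x‖ ≤ ‖x1‖ + dist x x1 := by
        rw [dist_eq_norm]
        calc ‖x‖ = ‖x1 + (x - x1)‖ := by rw [add_sub_cancel]
          _ ≤ ‖x1‖ + ‖x - x1‖ := norm_add_le _ _
      change ‖x‖ < 2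
      linarith
    have hxne : P (x, w1) * Q1 - Q (x, w1) * P1 ≠ 0 := by
      apply hne (by rw [hx]; exact hεε1)
      intro h6
      rw [mem_singleton_iff] at h6
      rw [h6, dist_self] at hx
      linarith
    have hcont : ContinuousAt (fun z : ℂ × ℂ => P (z.2, z.1) * Q1 - Q (z.2, z.1) * P1) (w1, x) := by
      have hsw : ContinuousAt (fun z : ℂ × ℂ => ((z.2, z.1) : ℂ × ℂ)) (w1, x) :=
        (continuous_snd.prodMk continuous_fst).continuousAt
      have ha : ContinuousAt (fun z : ℂ × ℂ => P (z.2, z.1)) (w1, x) :=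
        ContinuousAt.comp (g := P) (x := (w1, x)) (hol.hP _ hxT).continuousAt hsw
      have hb : ContinuousAt (fun z : ℂ × ℂ => Q (z.2, z.1)) (w1, x) :=
        ContinuousAt.comp (g := Q) (x := (w1, x)) (hol.hQ _ hxT).continuousAt hsw
      exact (ha.mul_const Q1).sub (hb.mul_const P1)
    exact hcont.eventually_ne hxne
  rw [Metric.eventually_nhds_iff] at htube
  obtain ⟨δ, hδ, htube⟩ := htube
  refine ⟨δ, hδ, ?_⟩
  intro z hz hzd
  set S : Set ℂ := ball 0 R ∩ ball w1 δ with hS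
  have hSc : IsPreconnected S := ((convex_ball _ _).inter (convex_ball _ _)).isPreconnected
  have hcX : ContinuousOn (fun z => dist (X z) x1) S := by
    have h7 : ContinuousOn X S := hBr.an.continuousOn.mono inter_subset_left
    intro y hy
    exact Filter.Tendsto.dist (h7 y hy) tendsto_const_nhds
  have hlim2 : ∀ᶠ k in atTop, w k ∈ S ∧ dist (X (w k)) x1 < ε := by
    have h8 : ∀ᶠ k in atTop, w k ∈ ball w1 δ := hww.eventually (ball_mem_nhds w1 hδ)
    have h9 : ∀ᶠ k in atTop, X (w k) ∈ ball x1 ε := hwX.eventually (ball_mem_nhds x1 hε)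
    filter_upwards [h8, h9] with k h8 h9
    exact ⟨⟨mem_ball_zero_iff.2 (hwR k), h8⟩, h9⟩
  obtain ⟨k, hkS, hkε⟩ := hlim2.exists
  have hzS : z ∈ S := ⟨hz, hzd⟩
  by_contra hcon
  push Not at hcon
  have hzε : ε ≤ dist (X z) x1 := hεε0.le.trans hcon
  obtain ⟨y, hyS, hy⟩ := hSc.intermediate_value hkS hzS hcX ⟨hkε.le, hzε⟩
  exact htube hyS.2 (X y) hy (hG y hyS.1)

end

end Pool.Agent.P2U
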