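import Pool.Agent.helper15.P2.SpecA2
import Pool.Agent.helper76.P2.STA1

/-!
# P2: row ALB, a one variable estimate
-/

set_option autoImplicit false

open scoped ContDiff Topology
open MeasureTheory Filter Set Metric MvPolynomial Pool.Agent.helper37.QA

namespace Pool.Agent.P2A

open Pool.Agent.P2

/-- continuity of the Laplacian -/
theorem ALB_lapc {Ψ : ℂ → ℝ} (hΨ : ContDiffOn ℝ ∞ Ψ (ball 0 1)) : ContinuousOn (lap Ψ) (ball 0 1) := by
  have h2 : ContDiffOn ℝ 2 Ψ (ball 0 1) := hΨ.of_le ENat.LEInfty.out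
  have h3 : ∀ v : ℂ, ContinuousOn (fun z => fderiv ℝ (fun w => fderiv ℝ Ψ w v) z v) (ball 0 1) := by
    intro v
    have h1 : ContDiffOn ℝ 1 (fun z => fderiv ℝ Ψ z v) (ball 0 1) :=
      (h2.fderiv_of_isOpen isOpen_ball (by norm_num)).clm_apply contDiffOn_const
    exact (h1.continuousOn_fderiv_of_isOpen isOpen_ball (by simp)).clm_apply continuousOn_const
  have h4 : ContinuousOn (fun z => (1 / 4) * (fderiv ℝ (fun w => fderiv ℝ Ψ w 1) z 1 +
      fderiv ℝ (fun w => fderiv ℝ Ψ w Complex.I) z Complex.I)) (ball 0 1) :=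
    continuousOn_const.mul ((h3 1).add (h3 Complex.I))
  exact h4.congr fun z hz => MSS_lap (h2.contDiffAt (isOpen_ball.mem_nhds hz))

/-- continuity of the energy density -/
theorem ALB_gradc {Ψ : ℂ → ℝ} (hΨ : ContDiffOn ℝ ∞ Ψ (ball 0 1)) :
    ContinuousOn (fun z => fderiv ℝ Ψ z 1 ^ 2 + fderiv ℝ Ψ z Complex.I ^ 2) (ball 0 1) := by
  have h3 : ∀ v : ℂ, ContinuousOn (fun z => fderiv ℝ Ψ z v) (ball 0 1) := fun v =>
    (hΨ.continuousOn_fderiv_of_isOpen isOpen_ball (by simp)).clm_apply continuousOn_const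
  exact ((h3 1).pow 2).add ((h3 Complex.I).pow 2)

theorem ALB_int {h : ℂ → ℝ} (hh : ContinuousOn h (ball 0 1)) : Integrable (fun z => eta z ^ 2 * h z) :=
  MSS_integrable isOpen_ball DMS_eta.1.continuous DMS_eta.2 STA_eta2_compact hh

theorem ALB_lapE_int : Integrable (lap fun z : ℂ => eta z ^ 2) := by
  have hE2 : ContDiff ℝ 2 (fun z : ℂ => eta z ^ 2) := DMS_eta.1.of_le ENat.LEInfty.out
  obtain ⟨h1, h2, h3⟩ := DMS_lap hE2 DMS_eta.2
  exact h1.integrable_of_hasCompactSupport h3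

/-- the energy estimate -/
theorem ALB_energy {Ψ : ℂ → ℝ} {B M : ℝ} (hΨ : ContDiffOn ℝ ∞ Ψ (ball 0 1)) (hB : 0 ≤ B)
    (hb : ∀ z ∈ ball (0 : ℂ) 1, |Ψ z| ≤ B) (hM : ∫ z, eta z ^ 2 * |lap Ψ z| ≤ M) :
    ∫ z, eta z ^ 2 * (fderiv ℝ Ψ z 1 ^ 2 + fderiv ℝ Ψ z Complex.I ^ 2) ≤
      2 * (∫ z, |lap (fun z : ℂ => eta z ^ 2) z|) * B ^ 2 + 4 * (B * M) := by
  have hE2 : ContDiff ℝ 2 (fun z : ℂ => eta z ^ 2) := DMS_eta.1.of_le ENat.LEInfty.out
  have h2 : ContDiffOn ℝ 2 Ψ (ball 0 1) := hΨ.of_le ENat.LEInfty.out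
  have hsq : ContDiffOn ℝ 2 (fun z => Ψ z * Ψ z) (ball 0 1) := h2.mul h2
  have hgr := MSS_green isOpen_ball hE2 DMS_eta.2 STA_eta2_compact hsq
  have hlap : ∀ z ∈ ball (0 : ℂ) 1, lap (fun z => Ψ z * Ψ z) z = 2 * (Ψ z * lap Ψ z) +
      (1 / 2) * (fderiv ℝ Ψ z 1 ^ 2 + fderiv ℝ Ψ z Complex.I ^ 2) := by
    intro z hz
    have hc : ContDiffAt ℝ 2 Ψ z := h2.contDiffAt (isOpen_ball.mem_nhds hz)
    rw [STA_lap_mul hc hc]
    ring
  have hi1 : Integrable (fun z => eta z ^ 2 * (Ψ z * lap Ψ z)) := ALB_int (hΨ.continuousOn.mul (ALB_lapc hΨ))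
  have hi2 := ALB_int (ALB_gradc hΨ)
  have hi3 : Integrable (fun z => eta z ^ 2 * |lap Ψ z|) := ALB_int (ALB_lapc hΨ).abs
  have he : (fun z => eta z ^ 2 * lap (fun z => Ψ z * Ψ z) z) = fun z =>
      2 * (eta z ^ 2 * (Ψ z * lap Ψ z)) +
        (1 / 2) * (eta z ^ 2 * (fderiv ℝ Ψ z 1 ^ 2 + fderiv ℝ Ψ z Complex.I ^ 2)) := by
    funext z
    by_cases hz : z ∈ ball (0 : ℂ) 1
    · rw [hlap z hz]
      ring
    · rw [STA_eta_zero hz]
      ring
  rw [he, integral_add (hi1.const_mul 2) (hi2.const_mul (1 / 2)), integral_const_mul, integral_const_mul] at hgr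
  have hb1 : ∫ z, lap (fun z : ℂ => eta z ^ 2) z * (Ψ z * Ψ z) ≤ (∫ z, |lap (fun z : ℂ => eta z ^ 2) z|) * B ^ 2 := by
    rw [← integral_mul_const]
    have hsup : ∀ z, lap (fun z : ℂ => eta z ^ 2) z * (Ψ z * Ψ z) ≤ |lap (fun z : ℂ => eta z ^ 2) z| * B ^ 2 := by
      intro z
      by_cases hz : z ∈ ball (0 : ℂ) 1
      · have h3 : Ψ z * Ψ z ≤ B ^ 2 := by
          have h4 := hb z hz
          have h5 := abs_nonneg (Ψ z)
          have h6 : Ψ z * Ψ z = |Ψ z| * |Ψ z| := (abs_mul_abs_self _).symm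
          rw [h6]
          nlinarith
        have h4 : 0 ≤ Ψ z * Ψ z := mul_self_nonneg _
        calc lap (fun z : ℂ => eta z ^ 2) z * (Ψ z * Ψ z) ≤ |lap (fun z : ℂ => eta z ^ 2) z| * (Ψ z * Ψ z) :=
              mul_le_mul_of_nonneg_right (le_abs_self _) h4
          _ ≤ |lap (fun z : ℂ => eta z ^ 2) z| * B ^ 2 := mul_le_mul_of_nonneg_left h3 (abs_nonneg _)
      · have h3 : lap (fun z : ℂ => eta z ^ 2) z = 0 :=
          STA_lap_zero (notMem_tsupport_iff_eventuallyEq.1 fun h => hz (DMS_eta.2 h))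
        rw [h3]
        simp
    have hint : Integrable (fun z => lap (fun z : ℂ => eta z ^ 2) z * (Ψ z * Ψ z)) := by
      obtain ⟨h3, h4, h5⟩ := DMS_lap hE2 DMS_eta.2
      exact MSS_integrable isOpen_ball h3 h4 h5 hsq.continuousOn
    exact integral_mono hint (ALB_lapE_int.abs.mul_const _) hsup
  have hb2 : -(B * M) ≤ ∫ z, eta z ^ 2 * (Ψ z * lap Ψ z) := by
    have h3 : ∫ z, -(eta z ^ 2 * (Ψ z * lap Ψ z)) ≤ ∫ z, B * (eta z ^ 2 * |lap Ψ z|) := by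
      refine integral_mono hi1.neg (hi3.const_mul B) ?_
      intro z
      change -(eta z ^ 2 * (Ψ z * lap Ψ z)) ≤ B * (eta z ^ 2 * |lap Ψ z|)
      by_cases hz : z ∈ ball (0 : ℂ) 1
      · have h4 : -(Ψ z * lap Ψ z) ≤ B * |lap Ψ z| := by
          calc -(Ψ z * lap Ψ z) ≤ |Ψ z * lap Ψ z| := neg_le_abs _
            _ = |Ψ z| * |lap Ψ z| := abs_mul _ _
            _ ≤ B * |lap Ψ z| := mul_le_mul_of_nonneg_right (hb z hz) (abs_nonneg _)
        have h5 := mul_le_mul_of_nonneg_left h4 (sq_nonneg (eta z))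
        nlinarith
      · rw [STA_eta_zero hz]
        simp
    rw [integral_neg, integral_const_mul] at h3
    have h4 := mul_le_mul_of_nonneg_left hM hB
    linarith
  linarith

theorem ALB_point {Ψ : ℂ → ℝ} {B t : ℝ} (hΨ : ContDiffOn ℝ ∞ Ψ (ball 0 1)) (hB : 0 ≤ B) (ht : 0 < t)
    (hb : ∀ z ∈ ball (0 : ℂ) 1, |Ψ z| ≤ B) (z : ℂ) :
    |lap (fun z => eta z ^ 2 * Ψ z) z| ≤ eta z ^ 2 * |lap Ψ z| + |lap (fun z : ℂ => eta z ^ 2) z| * B +
      (t * STA_E z + 1 / (2 * t) * (eta z ^ 2 * (fderiv ℝ Ψ z 1 ^ 2 + fderiv ℝ Ψ z Complex.I ^ 2))) := by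
  have hE := STA_E_nonneg z
  by_cases hz : z ∈ ball (0 : ℂ) 1
  · have hc : ContDiffAt ℝ 2 Ψ z := (hΨ.of_le ENat.LEInfty.out).contDiffAt (isOpen_ball.mem_nhds hz)
    have hE2 : ContDiffAt ℝ 2 (fun z : ℂ => eta z ^ 2) z := (DMS_eta.1.of_le ENat.LEInfty.out).contDiffAt
    have h2 : ∀ v, fderiv ℝ (fun z : ℂ => eta z ^ 2) z v = 2 * eta z * fderiv ℝ eta z v := by
      intro v
      have h3 : DifferentiableAt ℝ eta z := STA_eta_smooth.differentiable (by simp) z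
      have h4 : HasFDerivAt (fun z : ℂ => eta z ^ 2) _ z := h3.hasFDerivAt.pow 2
      rw [h4.fderiv]
      simp
    rw [STA_lap_mul hE2 hc, h2, h2]
    have hr : ∀ v, |eta z * fderiv ℝ eta z v * fderiv ℝ Ψ z v| ≤
        t / 2 * fderiv ℝ eta z v ^ 2 + 1 / (2 * t) * (eta z ^ 2 * fderiv ℝ Ψ z v ^ 2) := by
      intro v
      have h5 : 0 ≤ 1 / (2 * t) * (|t * fderiv ℝ eta z v| - |eta z * fderiv ℝ Ψ z v|) ^ 2 := by positivity
      have h6 : 1 / (2 * t) * (|t * fderiv ℝ eta z v| - |eta z * fderiv ℝ Ψ z v|) ^ 2 =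
          t / 2 * fderiv ℝ eta z v ^ 2 + 1 / (2 * t) * (eta z ^ 2 * fderiv ℝ Ψ z v ^ 2) -
            |eta z * fderiv ℝ eta z v * fderiv ℝ Ψ z v| := by
        rw [sub_sq, sq_abs, sq_abs, mul_assoc 2, ← abs_mul]
        have h7 : |t * fderiv ℝ eta z v * (eta z * fderiv ℝ Ψ z v)| =
            t * |eta z * fderiv ℝ eta z v * fderiv ℝ Ψ z v| := by
          rw [show t * fderiv ℝ eta z v * (eta z * fderiv ℝ Ψ z v) =
            t * (eta z * fderiv ℝ eta z v * fderiv ℝ Ψ z v) by ring, abs_mul, abs_of_pos ht]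
        rw [h7]
        field_simp
        ring
      linarith
    have h7 : |(1 / 2) * (2 * eta z * fderiv ℝ eta z 1 * fderiv ℝ Ψ z 1 +
        2 * eta z * fderiv ℝ eta z Complex.I * fderiv ℝ Ψ z Complex.I)| ≤
        t * STA_E z + 1 / (2 * t) * (eta z ^ 2 * (fderiv ℝ Ψ z 1 ^ 2 + fderiv ℝ Ψ z Complex.I ^ 2)) := by
      have h8 : (1 / 2) * (2 * eta z * fderiv ℝ eta z 1 * fderiv ℝ Ψ z 1 +
        2 * eta z * fderiv ℝ eta z Complex.I * fderiv ℝ Ψ z Complex.I) =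
        eta z * fderiv ℝ eta z 1 * fderiv ℝ Ψ z 1 + eta z * fderiv ℝ eta z Complex.I * fderiv ℝ Ψ z Complex.I := by
        ring
      rw [h8]
      have h9 := abs_add_le (eta z * fderiv ℝ eta z 1 * fderiv ℝ Ψ z 1)
        (eta z * fderiv ℝ eta z Complex.I * fderiv ℝ Ψ z Complex.I)
      have h10 := hr 1
      have h11 := hr Complex.I
      have h12 : t / 2 * (fderiv ℝ eta z 1 ^ 2 + fderiv ℝ eta z Complex.I ^ 2) ≤ t * STA_E z := by
        unfold STA_E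
        have h13 : 0 ≤ t * |lap (fun z : ℂ => eta z ^ 2) z| := by positivity
        nlinarith
      calc _ ≤ _ := h9
        _ ≤ t / 2 * (fderiv ℝ eta z 1 ^ 2 + fderiv ℝ eta z Complex.I ^ 2) +
          1 / (2 * t) * (eta z ^ 2 * (fderiv ℝ Ψ z 1 ^ 2 + fderiv ℝ Ψ z Complex.I ^ 2)) := by linarith
        _ ≤ _ := by linarith
    have h14 : |eta z ^ 2 * lap Ψ z| = eta z ^ 2 * |lap Ψ z| := by
      rw [abs_mul, abs_of_nonneg (sq_nonneg _)]
    have h15 : |Ψ z * lap (fun z : ℂ => eta z ^ 2) z| ≤ |lap (fun z : ℂ => eta z ^ 2) z| * B := by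
      rw [abs_mul, mul_comm]
      exact mul_le_mul_of_nonneg_left (hb z hz) (abs_nonneg _)
    refine (abs_add_le _ _).trans (add_le_add ((abs_add_le _ _).trans (add_le_add h14.le h15)) h7)
  · have h1 : lap (fun z => eta z ^ 2 * Ψ z) z = 0 := by
      apply STA_lap_zero
      filter_upwards [notMem_tsupport_iff_eventuallyEq.1 fun h => hz (DMS_eta.2 h)] with w hw
      have hw2 : eta w ^ 2 = 0 := hw
      rw [hw2, zero_mul]
    rw [h1, abs_zero]
    positivity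

theorem ALB : ALB_stmt := by
  obtain ⟨L1, hL1⟩ : ∃ L : ℝ, L = ∫ z, |lap (fun z : ℂ => eta z ^ 2) z| := ⟨_, rfl⟩
  obtain ⟨L2, hL2⟩ : ∃ L : ℝ, L = ∫ z, STA_E z := ⟨_, rfl⟩
  have hL10 : 0 ≤ L1 := by
    rw [hL1]
    exact integral_nonneg fun z => abs_nonneg _
  have hL20 : 0 ≤ L2 := by
    rw [hL2]
    exact integral_nonneg STA_E_nonneg
  refine ⟨3 + 2 * L1 + L2, by linarith, ?_⟩
  intro Ψ B M hΨ hB hb hM
  have hM0 : 0 ≤ M := le_trans (integral_nonneg fun z => by positivity) hM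
  have hen := ALB_energy hΨ hB hb hM
  rw [← hL1] at hen
  have hi2 := ALB_int (ALB_gradc hΨ)
  have hi3 : Integrable (fun z => eta z ^ 2 * |lap Ψ z|) := ALB_int (ALB_lapc hΨ).abs
  have key : ∀ t : ℝ, 0 < t → B + M ≤ t → ∫ z, |lap (fun z => eta z ^ 2 * Ψ z) z| ≤ (3 + 2 * L1 + L2) * t := by
    intro t ht hBM
    have h1 : ∫ z, |lap (fun z => eta z ^ 2 * Ψ z) z| ≤ ∫ z, (eta z ^ 2 * |lap Ψ z| + |lap (fun z : ℂ => eta z ^ 2) z| * B +
      (t * STA_E z + 1 / (2 * t) * (eta z ^ 2 * (fderiv ℝ Ψ z 1 ^ 2 + fderiv ℝ Ψ z Complex.I ^ 2)))) := by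
      refine integral_mono_of_nonneg (Eventually.of_forall fun z => abs_nonneg _) ?_
        (Eventually.of_forall fun z => ALB_point hΨ hB ht hb z)
      exact (hi3.add (ALB_lapE_int.abs.mul_const B)).add ((STA_E_int.const_mul t).add (hi2.const_mul _))
    have i12 : Integrable (fun z => eta z ^ 2 * |lap Ψ z| + |lap (fun z : ℂ => eta z ^ 2) z| * B) :=
      hi3.add (ALB_lapE_int.abs.mul_const B)
    have i34 : Integrable (fun z => t * STA_E z +
        1 / (2 * t) * (eta z ^ 2 * (fderiv ℝ Ψ z 1 ^ 2 + fderiv ℝ Ψ z Complex.I ^ 2))) :=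
      (STA_E_int.const_mul t).add (hi2.const_mul _)
    rw [integral_add i12 i34,
      integral_add hi3 (ALB_lapE_int.abs.mul_const B), integral_add (STA_E_int.const_mul t) (hi2.const_mul _),
      integral_mul_const, integral_const_mul, integral_const_mul, ← hL1, ← hL2] at h1
    have h2 : 1 / (2 * t) * (∫ z, eta z ^ 2 * (fderiv ℝ Ψ z 1 ^ 2 + fderiv ℝ Ψ z Complex.I ^ 2)) ≤ (L1 + 2) * t := by
      have h3 : (∫ z, eta z ^ 2 * (fderiv ℝ Ψ z 1 ^ 2 + fderiv ℝ Ψ z Complex.I ^ 2)) ≤ (L1 + 2) * t * (2 * t) := by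
        refine hen.trans ?_
        have h4 : B ^ 2 ≤ t ^ 2 := by nlinarith
        have h5 : B * M ≤ t ^ 2 := by nlinarith
        nlinarith
      rw [div_mul_eq_mul_div, one_mul, div_le_iff₀ (by positivity)]
      exact h3
    have h5 : L1 * B ≤ L1 * t := mul_le_mul_of_nonneg_left (by linarith) hL10
    nlinarith
  have hC : 0 < 3 + 2 * L1 + L2 := by linarith
  refine le_of_forall_pos_le_add fun ε hε => ?_
  have h1 := key (B + M + ε / (3 + 2 * L1 + L2)) (by positivity) (by linarith [div_pos hε hC])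
  have h2 : (3 + 2 * L1 + L2) * (B + M + ε / (3 + 2 * L1 + L2)) = (3 + 2 * L1 + L2) * (B + M) + ε := by
    field_simp
  rw [h2] at h1
  exact h1

end Pool.Agent.P2A
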